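import Pool.Agent.V5helper56.CC.Core
import Pool.Agent.TH784.AA.Irr

/-!
# The dichotomy for orbit sums in finitely generated modules over finitely generated `ℚ`-algebras
-/

set_option autoImplicit false

open Polynomial

noncomputable section

namespace Pool.Agent.V5helper56.CC

open Pool.Agent.TH784.AA (Copr irr_copr)

theorem Dich.mul {W : Type*} {u : ℤ → W} {q : ℕ} (h : Dich u q) {k : ℕ} (hk : 1 ≤ k) :
    Dich u (q * k) := by
  classical
  intro r
  rcases h r with h1 | ⟨K, hK⟩
  · left
    intro n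
    have := h1 (k * n)
    rwa [← mul_assoc] at this
  · right
    refine ⟨K, fun w s hs => ?_⟩
    have hinj : Function.Injective fun n : ℕ => k * n := fun a b hab =>
      Nat.eq_of_mul_eq_mul_left (by omega) hab
    rw [← Finset.card_image_of_injective s hinj]
    apply hK w
    intro n hn
    obtain ⟨n', hn', rfl⟩ := Finset.mem_image.1 hn
    have := hs n' hn'
    rwa [mul_assoc] at this

variable {R : Type*} [CommRing R] [Algebra ℚ R] [Algebra.FiniteType ℚ R] {D m : ℕ}

/-- **coprimary modules** -/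
theorem copr_dich {W : Type*} [AddCommGroup W] [Module R W] [Module.Finite R W] (hW : Copr R W)
    (t : Fin D → Rˣ) (P : Fin D → Fin m → ℤ[X]) (χ : Fin m → W) :
    ∃ q : ℕ, 1 ≤ q ∧ Dich (os t P χ) q := by
  set I := Module.annihilator R W with hI
  have hnt := hW.nt
  have hI1 : I ≠ ⊤ := by
    intro h
    obtain ⟨w, hw⟩ := exists_ne (0 : W)
    have h1 : (1 : R) ∈ I := by
      rw [h]
      exact Submodule.mem_top
    rw [hI, Module.mem_annihilator] at h1
    exact hw (by simpa using h1 w)
  have hnt' : Nontrivial (R ⧸ I) := Ideal.Quotient.nontrivial_iff.2 hI1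
  have hft : Algebra.FiniteType ℚ (R ⧸ I) :=
    Algebra.FiniteType.of_surjective (Ideal.Quotient.mkₐ ℚ I) (Ideal.Quotient.mkₐ_surjective ℚ I)
  obtain ⟨s, g, hg, hgf⟩ := exists_finite_inj_algHom_of_fg ℚ (R ⧸ I)
  letI modQ : Module (R ⧸ I) W := Module.quotientAnnihilator
  letI modS : Module (MvPolynomial (Fin s) ℚ) W := Module.compHom W g.toRingHom
  have hQ : ∀ (r : R) (w : W), (Ideal.Quotient.mk I r) • w = r • w := fun r w => rfl
  have hS : ∀ (f : MvPolynomial (Fin s) ℚ) (w : W), f • w = (g f) • w := fun f w => rfl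
  have hlift : ∀ f : MvPolynomial (Fin s) ℚ, ∃ r : R, Ideal.Quotient.mk I r = g f := fun f =>
    Ideal.Quotient.mk_surjective (g f)
  have hcomm : SMulCommClass R (MvPolynomial (Fin s) ℚ) W := ⟨fun r f w => by
    obtain ⟨r', hr'⟩ := hlift f
    rw [hS, hS, ← hr', hQ, hQ, smul_comm]⟩
  have hfinS : Module.Finite (MvPolynomial (Fin s) ℚ) W := by
    letI : Algebra (MvPolynomial (Fin s) ℚ) (R ⧸ I) := g.toRingHom.toAlgebra
    have h1 : Module.Finite (MvPolynomial (Fin s) ℚ) (R ⧸ I) := hgf
    have h2 : IsScalarTower (MvPolynomial (Fin s) ℚ) (R ⧸ I) W := ⟨fun f z w => by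
      rw [hS, Algebra.smul_def, mul_smul]
      rfl⟩
    have h3 : Module.Finite (R ⧸ I) W := by
      have h4 : IsScalarTower R (R ⧸ I) W := ⟨fun r z w => by
        obtain ⟨r', rfl⟩ := Ideal.Quotient.mk_surjective z
        rw [hQ, Algebra.smul_def]
        show (Ideal.Quotient.mk I r * Ideal.Quotient.mk I r') • w = _
        rw [← map_mul, hQ, mul_smul]⟩
      exact Module.Finite.of_restrictScalars_finite R (R ⧸ I) W
    exact Module.Finite.trans (R ⧸ I) W
  refine core (s := s) (fun f w hf hfw => ?_) t P χ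
  obtain ⟨r, hr⟩ := hlift f
  rcases hW.dich r with ⟨k, hk⟩ | h1
  · exfalso
    have h2 : (Ideal.Quotient.mk I r) ^ k = 0 := by
      rw [← map_pow]
      exact Ideal.Quotient.eq_zero_iff_mem.2 hk
    rw [hr, ← map_pow] at h2
    have h3 : f ^ k = 0 := hg (by rw [h2, map_zero])
    exact hf (eq_zero_of_pow_eq_zero h3)
  · apply h1
    rw [← hQ, hr]
    exact hfw

theorem mkQ_os {N : Type*} [AddCommGroup N] [Module R N] (L : Submodule R N) (t : Fin D → Rˣ)
    (P : Fin D → Fin m → ℤ[X]) (χ : Fin m → N) (n : ℤ) :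
    L.mkQ (os t P χ n) = os t P (fun j => L.mkQ (χ j)) n := by
  rw [os, os, map_sum]
  exact Finset.sum_congr rfl fun j _ => map_smul _ _ _

/-- **The dichotomy.** -/
theorem dich {N : Type*} [AddCommGroup N] [Module R N] [Module.Finite R N]
    (t : Fin D → Rˣ) (P : Fin D → Fin m → ℤ[X]) (χ : Fin m → N) :
    ∃ q : ℕ, 1 ≤ q ∧ Dich (os t P χ) q := by
  classical
  have hnr : IsNoetherianRing R := Algebra.FiniteType.isNoetherianRing ℚ R
  have hnN : IsNoetherian R N := isNoetherian_of_isNoetherianRing_of_finite R N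
  have key : ∀ L : Submodule R N, ∃ q : ℕ, 1 ≤ q ∧ Dich (fun n => L.mkQ (os t P χ n)) q := by
    intro L
    induction L using WellFoundedGT.induction with
    | ind L ih =>
      by_cases htop : L = ⊤
      · refine ⟨1, le_rfl, fun r => Or.inl fun n => ?_⟩
        subst htop
        have hss : Subsingleton (N ⧸ (⊤ : Submodule R N)) := Submodule.Quotient.subsingleton_iff.2 rfl
        exact Subsingleton.elim _ _
      by_cases hirr : InfIrred L
      · obtain ⟨q, hq, h⟩ := copr_dich (irr_copr hirr) t P (fun j => L.mkQ (χ j))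
        refine ⟨q, hq, ?_⟩
        have e : (fun n => L.mkQ (os t P χ n)) = os t P fun j => L.mkQ (χ j) := by
          funext n
          exact mkQ_os L t P χ n
        rw [e]
        exact h
      · have hex : ∃ L₁ L₂ : Submodule R N, L₁ ⊓ L₂ = L ∧ L₁ ≠ L ∧ L₂ ≠ L := by
          by_contra hcon
          push Not at hcon
          apply hirr
          refine ⟨fun hmax => htop (isMax_iff_eq_top.1 hmax), fun b c hbc => ?_⟩
          by_cases hb : b = L
          · exact Or.inl hb
          · exact Or.inr (hcon b c hbc hb)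
        obtain ⟨L₁, L₂, h12, h1, h2⟩ := hex
        have hle1 : L ≤ L₁ := by
          rw [← h12]
          exact inf_le_left
        have hle2 : L ≤ L₂ := by
          rw [← h12]
          exact inf_le_right
        obtain ⟨q₁, hq₁, d₁⟩ := ih L₁ (lt_of_le_of_ne hle1 (Ne.symm h1))
        obtain ⟨q₂, hq₂, d₂⟩ := ih L₂ (lt_of_le_of_ne hle2 (Ne.symm h2))
        have d₁' := d₁.mul hq₂
        have d₂' := d₂.mul hq₁
        rw [mul_comm q₂ q₁] at d₂'
        refine ⟨q₁ * q₂, Nat.mul_pos hq₁ hq₂, fun r => ?_⟩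
        have hfac : ∀ {L' : Submodule R N}, L ≤ L' → ∀ x y : N, L.mkQ x = L.mkQ y →
            L'.mkQ x = L'.mkQ y := by
          intro L' hL' x y hxy
          rw [Submodule.mkQ_apply, Submodule.mkQ_apply, Submodule.Quotient.eq] at hxy ⊢
          exact hL' hxy
        have hbd : ∀ {L' : Submodule R N}, L ≤ L' →
            (∃ K : ℕ, ∀ (w : N ⧸ L') (s : Finset ℕ),
              (∀ n ∈ s, L'.mkQ (os t P χ ((r + q₁ * q₂ * n : ℕ) : ℤ)) = w) → s.card ≤ K) →
            ∃ K : ℕ, ∀ (w : N ⧸ L) (s : Finset ℕ),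
              (∀ n ∈ s, L.mkQ (os t P χ ((r + q₁ * q₂ * n : ℕ) : ℤ)) = w) → s.card ≤ K := by
          rintro L' hL' ⟨K, hK⟩
          refine ⟨K, fun w s hs => ?_⟩
          rcases s.eq_empty_or_nonempty with h0 | ⟨n₁, hn₁⟩
          · rw [h0, Finset.card_empty]
            exact Nat.zero_le _
          · refine hK (L'.mkQ (os t P χ ((r + q₁ * q₂ * n₁ : ℕ) : ℤ))) s fun n hn => ?_
            exact hfac hL' _ _ ((hs n hn).trans (hs n₁ hn₁).symm)
        rcases d₁' r with c₁ | b₁
        · rcases d₂' r with c₂ | b₂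
          · left
            intro n
            have e1 := c₁ n
            have e2 := c₂ n
            simp only [Submodule.mkQ_apply, Submodule.Quotient.eq] at e1 e2 ⊢
            rw [← h12]
            exact ⟨e1, e2⟩
          · exact Or.inr (hbd hle2 b₂)
        · exact Or.inr (hbd hle1 b₁)
  obtain ⟨q, hq, h⟩ := key ⊥
  refine ⟨q, hq, fun r => ?_⟩
  have hinj : Function.Injective (⊥ : Submodule R N).mkQ := by
    rw [← LinearMap.ker_eq_bot, Submodule.ker_mkQ]
  rcases h r with h1 | ⟨K, hK⟩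
  · exact Or.inl fun n => hinj (h1 n)
  · exact Or.inr ⟨K, fun w s hs => hK ((⊥ : Submodule R N).mkQ w) s fun n hn => by
      simp only
      rw [hs n hn]⟩

end Pool.Agent.V5helper56.CC
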