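import Pool.Agent.V5helper56.CC.IVP
import Pool.Agent.V5helper56.CC.Dich

/-!
# Orbit sums which are constant modulo a submodule with trivial action are polynomial
(the Artin–Rees lemma)
-/

set_option autoImplicit false

open Polynomial fwdDiff

noncomputable section

namespace Pool.Agent.V5helper56.CC

theorem iter_map {A A' : Type*} [AddCommGroup A] [AddCommGroup A'] (φ : A →+ A') (f : ℤ → A)
    (b : ℕ) : (fwdDiff 1)^[b] (fun n => φ (f n)) = fun n => φ ((fwdDiff 1)^[b] f n) := by
  induction b generalizing f with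
  | zero => rfl
  | succ b ih =>
    rw [Function.iterate_succ_apply, Function.iterate_succ_apply, ← ih]
    congr 1
    funext n
    simp only [fwdDiff]
    rw [map_sub]

variable {R M : Type*} [CommRing R] [IsNoetherianRing R] [AddCommGroup M] [Module R M] {D m : ℕ}

theorem poly_phase (t : Fin D → Rˣ) (P : Fin D → Fin m → ℤ[X]) (χ : Fin m → M)
    (C : Submodule R M) (hC : ∀ i, ∀ c ∈ C, (t i : R) • c = c) (r q : ℕ)
    (h : ∀ n : ℕ, os t P χ ((r + q * n : ℕ) : ℤ) - os t P χ (r : ℤ) ∈ C) :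
    ∃ (B : ℕ) (c : ℕ → M), (∀ k, c k ∈ C) ∧ ∀ n : ℕ,
      os t P χ ((r + q * n : ℕ) : ℤ) - os t P χ (r : ℤ) =
        ∑ k ∈ Finset.range B, (n.choose k) • c k := by
  classical
  set N : Submodule R M := Submodule.span R (Set.range χ) with hN
  have hNfg : Module.Finite R N := Module.Finite.span_of_finite R (Set.finite_range χ)
  let χ' : Fin m → N := fun j => ⟨χ j, Submodule.subset_span ⟨j, rfl⟩⟩
  have hos : ∀ n, ((os t P χ' n : N) : M) = os t P χ n := by
    intro n
    rw [os, os, Submodule.coe_sum]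
    rfl
  let C' : Submodule R N := C.comap N.subtype
  have hC' : ∀ x : N, x ∈ C' ↔ (x : M) ∈ C := fun x => Iff.rfl
  let I : Ideal R := Ideal.span (Set.range fun i => (t i : R) - 1)
  have hIC : I • C' = ⊥ := by
    rw [eq_bot_iff, Submodule.smul_le]
    intro z hz c hc
    rw [Submodule.mem_bot]
    have hmem : I ≤ {
        carrier := {z : R | z • c = 0}
        add_mem' := fun {a b} ha hb => by
          show (a + b) • c = 0
          rw [add_smul, ha, hb, add_zero]
        zero_mem' := zero_smul R c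
        smul_mem' := fun a b hb => by
          show (a * b) • c = 0
          rw [mul_smul, hb, smul_zero] } := by
      rw [Ideal.span_le]
      rintro _ ⟨i, rfl⟩
      show ((t i : R) - 1) • c = 0
      apply Subtype.ext
      show ((t i : R) - 1) • (c : M) = 0
      rw [sub_smul, one_smul, hC i (c : M) hc, sub_self]
    exact hmem hz
  obtain ⟨k, hk⟩ := Ideal.exists_pow_inf_eq_pow_smul I C'
  set K := k + 1 with hK
  have hbot : I ^ K • (⊤ : Submodule R N) ⊓ C' = ⊥ := by
    rw [hk K (by omega), hK, Nat.add_sub_cancel_left, pow_one, eq_bot_iff, ← hIC]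
    exact Submodule.smul_mono le_rfl inf_le_right
  -- modulo `I ^ K`
  let π : R →+* R ⧸ (I ^ K) := Ideal.Quotient.mk (I ^ K)
  let Y : Submodule R N := I ^ K • (⊤ : Submodule R N)
  have hnil : ∀ i, (((Units.map (π : R →* R ⧸ (I ^ K)) (t i) : (R ⧸ (I ^ K))ˣ) : R ⧸ (I ^ K)) - 1) ^ K
      = 0 := by
    intro i
    show (π (t i : R) - 1) ^ K = 0
    rw [← map_one π, ← map_sub, ← map_pow]
    exact Ideal.Quotient.eq_zero_iff_mem.2 (Ideal.pow_mem_pow
      (show (t i : R) - 1 ∈ I from Ideal.subset_span ⟨i, rfl⟩) K)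
  have hPZ : ∀ j : Fin m, (fun n : ℤ =>
      π (((List.ofFn fun i => t i ^ (P i j).eval n).prod : Rˣ) : R)) ∈ PZ (R ⧸ (I ^ K)) := by
    intro j
    have h1 := PZ_list (K := K) (List.ofFn fun i =>
      (Units.map (π : R →* R ⧸ (I ^ K)) (t i), P i j)) (by
        intro z hz
        rw [List.mem_ofFn] at hz
        obtain ⟨i, rfl⟩ := hz
        exact hnil i)
    have e : ∀ n : ℤ, ((((List.ofFn fun i => (Units.map (π : R →* R ⧸ (I ^ K)) (t i), P i j)).map
        fun z => z.1 ^ z.2.eval n).prod : (R ⧸ (I ^ K))ˣ) : R ⧸ (I ^ K)) =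
        π (((List.ofFn fun i => t i ^ (P i j).eval n).prod : Rˣ) : R) := by
      intro n
      have h2 : ((List.ofFn fun i => (Units.map (π : R →* R ⧸ (I ^ K)) (t i), P i j)).map
        fun z => z.1 ^ z.2.eval n).prod = Units.map (π : R →* R ⧸ (I ^ K))
          ((List.ofFn fun i => t i ^ (P i j).eval n).prod) := by
        rw [map_list_prod, List.map_ofFn, List.map_ofFn]
        congr 2
        funext i
        simp only [Function.comp_apply, map_zpow]
      rw [h2]
      rfl
    simp only [e] at h1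
    exact h1
  have hF : ∀ j : Fin m, ∃ F : (R ⧸ (I ^ K)) →+ (N ⧸ Y), ∀ z : R, F (π z) = Y.mkQ (z • χ' j) := by
    intro j
    let φ : R →ₗ[R] (N ⧸ Y) := Y.mkQ ∘ₗ (LinearMap.toSpanSingleton R N (χ' j))
    have hφ : I ^ K ≤ LinearMap.ker φ := by
      intro z hz
      rw [LinearMap.mem_ker]
      show Y.mkQ (z • χ' j) = 0
      rw [Submodule.mkQ_apply, Submodule.Quotient.mk_eq_zero]
      exact Submodule.smul_mem_smul hz Submodule.mem_top
    exact ⟨((I ^ K).liftQ φ hφ).toAddMonoidHom, fun z => rfl⟩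
  choose F hF using hF
  have hmk : ∀ n : ℤ, Y.mkQ (os t P χ' n) =
      ∑ j, F j (π (((List.ofFn fun i => t i ^ (P i j).eval n).prod : Rˣ) : R)) := by
    intro n
    rw [os, map_sum]
    exact Finset.sum_congr rfl fun j _ => (hF j _).symm
  set V : ℤ → N := fun n => os t P χ' ((r : ℤ) + q * n) with hV
  have hVPZ : (fun n => Y.mkQ (V n)) ∈ PZ (N ⧸ Y) := by
    have h1 : (fun n => Y.mkQ (os t P χ' n)) ∈ PZ (N ⧸ Y) := by
      simp only [hmk]
      exact PZ_sum _ fun j _ => PZ_map (F j) (hPZ j)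
    exact PZ_shift h1 r q
  obtain ⟨B, hB⟩ := PZ_diff hVPZ
  have hVY : ∀ b, B ≤ b → ∀ n, (fwdDiff 1)^[b] V n ∈ Y := by
    intro b hb n
    have h1 := congrFun (iter_map Y.mkQ.toAddMonoidHom V b) n
    have h2 : (fwdDiff 1)^[b] (fun n => Y.mkQ.toAddMonoidHom (V n)) = 0 := hB b hb
    rw [h2] at h1
    have h3 : Y.mkQ ((fwdDiff 1)^[b] V n) = 0 := h1.symm
    rwa [Submodule.mkQ_apply, Submodule.Quotient.mk_eq_zero] at h3
  set W : ℤ → N := fun n => V n - V 0 with hW
  have hWC : ∀ n : ℕ, W (n : ℤ) ∈ C' := by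
    intro n
    rw [hC']
    have h1 := h n
    rw [← hos, ← hos] at h1
    rw [hW, hV]
    simp only [mul_zero, add_zero]
    push_cast at h1 ⊢
    exact h1
  have hWV : ∀ k, 1 ≤ k → ∀ n, (fwdDiff 1)^[k] W n = (fwdDiff 1)^[k] V n := by
    intro k hk n
    obtain ⟨k, rfl⟩ := Nat.exists_eq_add_of_le' hk
    rw [Function.iterate_succ_apply, Function.iterate_succ_apply]
    have e : fwdDiff 1 W = fwdDiff 1 V := by
      funext n
      simp only [hW, fwdDiff]
      abel
    rw [e]
  have hWk : ∀ k, (fwdDiff 1)^[k] W 0 ∈ C' := by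
    intro k
    rw [fwdDiff_iter_eq_sum_shift]
    apply Submodule.sum_mem
    intro i _
    apply C'.toAddSubgroup.zsmul_mem
    have := hWC i
    simpa using this
  have hW0 : ∀ k, max B 1 ≤ k → (fwdDiff 1)^[k] W 0 = 0 := by
    intro k hk
    have h1 : (fwdDiff 1)^[k] W 0 ∈ Y ⊓ C' := by
      refine ⟨?_, hWk k⟩
      show (fwdDiff 1)^[k] W 0 ∈ Y
      rw [hWV k ((le_max_right _ _).trans hk)]
      exact hVY k ((le_max_left _ _).trans hk) 0
    have h2 : Y ⊓ C' = ⊥ := hbot
    rw [h2, Submodule.mem_bot] at h1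
    exact h1
  refine ⟨max B 1, fun k => (((fwdDiff 1)^[k] W 0 : N) : M), fun k => (hC' _).1 (hWk k),
    fun n => ?_⟩
  have h1 := shift_eq_sum_fwdDiff_iter (1 : ℤ) W n 0
  simp only [nsmul_eq_mul, mul_one, zero_add] at h1
  have h2 : ∑ k ∈ Finset.range (n + 1), n.choose k • (fwdDiff 1)^[k] W 0 =
      ∑ k ∈ Finset.range (max B 1), n.choose k • (fwdDiff 1)^[k] W 0 := by
    rcases le_total (n + 1) (max B 1) with hle | hle
    · apply Finset.sum_subset (Finset.range_mono hle)
      intro k _ hk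
      rw [Finset.mem_range, not_lt] at hk
      rw [Nat.choose_eq_zero_of_lt (by omega), zero_smul]
    · symm
      apply Finset.sum_subset (Finset.range_mono hle)
      intro k _ hk
      rw [Finset.mem_range, not_lt] at hk
      rw [hW0 k hk, smul_zero]
  rw [h2] at h1
  have h3 := congrArg N.subtype h1
  rw [map_sum] at h3
  have h4 : N.subtype (W (n : ℤ)) = os t P χ ((r + q * n : ℕ) : ℤ) - os t P χ (r : ℤ) := by
    rw [← hos, ← hos, hW, hV]
    simp only [mul_zero, add_zero, map_sub, Submodule.subtype_apply]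
    push_cast
    rfl
  rw [h4] at h3
  rw [h3]
  exact Finset.sum_congr rfl fun k _ => map_nsmul N.subtype _ _

end Pool.Agent.V5helper56.CC
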