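import Pool.Agent.V5helper56.CC.Spec
import Pool.Agent.V5helper56.CC.Freq

/-!
# Orbit sums in torsion-free modules over polynomial rings
-/

set_option autoImplicit false

open Polynomial

noncomputable section

namespace Pool.Agent.V5helper56.CC

/-- orbit sums `∑_j t_1^(P_1j(n)) ⋯ t_D^(P_Dj(n)) χ_j` -/
def os {R W : Type*} [CommRing R] [AddCommGroup W] [Module R W] {D m : ℕ} (t : Fin D → Rˣ)
    (P : Fin D → Fin m → ℤ[X]) (χ : Fin m → W) (n : ℤ) : W :=
  ∑ j, (((List.ofFn fun i => t i ^ (P i j).eval n).prod : Rˣ) : R) • χ j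

/-- constant or of bounded multiplicity along the progressions modulo `q` -/
def Dich {W : Type*} (u : ℤ → W) (q : ℕ) : Prop := ∀ r : ℕ,
  (∀ n : ℕ, u ((r + q * n : ℕ) : ℤ) = u (r : ℤ)) ∨
  ∃ K : ℕ, ∀ (w : W) (s : Finset ℕ), (∀ n ∈ s, u ((r + q * n : ℕ) : ℤ) = w) → s.card ≤ K

section

variable {s : ℕ} {W : Type*} [AddCommGroup W] [Module (MvPolynomial (Fin s) ℚ) W]
  [Module.Finite (MvPolynomial (Fin s) ℚ) W]

/-- generic freeness -/
theorem free_loc : ∃ h : MvPolynomial (Fin s) ℚ, h ≠ 0 ∧ ∃ N : ℕ,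
    Nonempty (Module.Basis (Fin N) (Localization (.powers h)) (LocalizedModule.Away h W)) := by
  have hfp : Module.FinitePresentation (MvPolynomial (Fin s) ℚ) W :=
    Module.finitePresentation_of_finite _ _
  have hfree : Module.Free (FractionRing (MvPolynomial (Fin s) ℚ))
      (LocalizedModule (nonZeroDivisors (MvPolynomial (Fin s) ℚ)) W) :=
    Module.Free.of_divisionRing _ _
  obtain ⟨h, hh, hf, _⟩ := Module.FinitePresentation.exists_free_localizedModule_powers
    (nonZeroDivisors (MvPolynomial (Fin s) ℚ))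
    (LocalizedModule.mkLinearMap (nonZeroDivisors (MvPolynomial (Fin s) ℚ)) W)
    (FractionRing (MvPolynomial (Fin s) ℚ))
  have hh0 : h ≠ 0 := nonZeroDivisors.ne_zero hh
  have hnt : Nontrivial (Localization (.powers h)) :=
    (IsLocalization.injective (Localization (.powers h))
      (powers_le_nonZeroDivisors_of_noZeroDivisors hh0)).nontrivial
  have hfin : Module.Finite (Localization (.powers h)) (LocalizedModule.Away h W) :=
    Module.Finite.of_isLocalizedModule (.powers h)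
      (LocalizedModule.mkLinearMap (.powers h) W)
  exact ⟨h, hh0, _, ⟨Module.finBasis _ _⟩⟩

variable {R : Type*} [CommRing R] [Module R W] [SMulCommClass R (MvPolynomial (Fin s) ℚ) W]

variable (s W) in
/-- multiplication by `r` -/
def lam (r : R) : W →ₗ[MvPolynomial (Fin s) ℚ] W where
  toFun w := r • w
  map_add' := smul_add r
  map_smul' f w := smul_comm r f w

variable (W) in
/-- multiplication by `r` on the localisation -/
def Lam (h : MvPolynomial (Fin s) ℚ) (r : R) :
    LocalizedModule.Away h W →ₗ[Localization (.powers h)] LocalizedModule.Away h W :=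
  LocalizedModule.map (.powers h) (lam s W r)

theorem Lam_mk (h : MvPolynomial (Fin s) ℚ) (r : R) (w : W) (x) :
    Lam W h r (LocalizedModule.mk w x) = LocalizedModule.mk (r • w) x :=
  LocalizedModule.map_mk _ _ _ _

theorem Lam_mul (h : MvPolynomial (Fin s) ℚ) (r r' : R) :
    Lam W h (r * r') = (Lam W h r) ∘ₗ (Lam W h r') := by
  apply LinearMap.ext
  intro x
  induction x using LocalizedModule.induction_on with
  | h w y => rw [LinearMap.comp_apply, Lam_mk, Lam_mk, Lam_mk, mul_smul]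

theorem Lam_one (h : MvPolynomial (Fin s) ℚ) : Lam W h (1 : R) = LinearMap.id := by
  apply LinearMap.ext
  intro x
  induction x using LocalizedModule.induction_on with
  | h w y => rw [Lam_mk, one_smul, LinearMap.id_apply]

/-- **The dichotomy in a torsion-free module over a polynomial ring.** -/
theorem core (htf : ∀ (f : MvPolynomial (Fin s) ℚ) (w : W), f ≠ 0 → f • w = 0 → w = 0)
    {D m : ℕ} (t : Fin D → Rˣ) (P : Fin D → Fin m → ℤ[X]) (χ : Fin m → W) :
    ∃ q : ℕ, 1 ≤ q ∧ Dich (os t P χ) q := by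
  classical
  obtain ⟨h, hh, N, ⟨b⟩⟩ := free_loc (s := s) (W := W)
  set A := Localization (.powers h) with hA
  -- matrices
  let β0 : R →* Matrix (Fin N) (Fin N) A :=
    { toFun := fun r => LinearMap.toMatrix b b (Lam W h r)
      map_one' := by rw [Lam_one, LinearMap.toMatrix_id]
      map_mul' := fun r r' => by rw [Lam_mul, LinearMap.toMatrix_comp b b b] }
  -- coordinates
  let c : W → Fin N → A := fun w => b.repr (LocalizedModule.mk w 1)
  have hc_add : ∀ w w', c (w + w') = c w + c w' := by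
    intro w w'
    have e : LocalizedModule.mk (w + w') (1 : Submonoid.powers h) =
        LocalizedModule.mk w 1 + LocalizedModule.mk w' 1 :=
      map_add (LocalizedModule.mkLinearMap (.powers h) W) w w'
    funext a
    show b.repr (LocalizedModule.mk (w + w') 1) a = _
    rw [e, map_add]
    rfl
  have hc_zero : c 0 = 0 := by
    have e : LocalizedModule.mk (0 : W) (1 : Submonoid.powers h) = 0 :=
      map_zero (LocalizedModule.mkLinearMap (.powers h) W)
    funext a
    show b.repr (LocalizedModule.mk 0 1) a = _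
    rw [e, map_zero]
    rfl
  have hc_sum : ∀ (f : Fin m → W), c (∑ j, f j) = ∑ j, c (f j) := by
    intro f
    let C : W →+ (Fin N → A) := { toFun := c, map_zero' := hc_zero, map_add' := hc_add }
    exact map_sum C f Finset.univ
  have hc_smul : ∀ (r : R) (w : W), c (r • w) = (β0 r).mulVec (c w) := by
    intro r w
    have h1 := LinearMap.toMatrix_mulVec_repr b b (Lam W h r) (LocalizedModule.mk w 1)
    rw [Lam_mk] at h1
    exact h1.symm
  have hc_inj : ∀ w, c w = 0 → w = 0 := by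
    intro w hw
    have h1 : b.repr (LocalizedModule.mk w 1) = 0 := Finsupp.ext fun a => congrFun hw a
    have h2 : LocalizedModule.mk w (1 : Submonoid.powers h) = 0 := b.repr.map_eq_zero_iff.1 h1
    have h3 : (LocalizedModule.mkLinearMap (.powers h) W) w = 0 := h2
    rw [IsLocalizedModule.eq_zero_iff (.powers h)] at h3
    obtain ⟨⟨_, k, rfl⟩, hk⟩ := h3
    exact htf (h ^ k) w (pow_ne_zero k hh) hk
  -- the finite set
  let E : Finset A :=
    (Finset.univ.image fun z : Fin D × Fin N × Fin N => β0 (t z.1 : R) z.2.1 z.2.2) ∪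
    ((Finset.univ.image fun z : Fin D × Fin N × Fin N =>
      β0 ((t z.1)⁻¹ : Rˣ) z.2.1 z.2.2) ∪
    (Finset.univ.image fun z : Fin m × Fin N => c (χ z.1) z.2))
  have hE1 : ∀ i a a', β0 (t i : R) a a' ∈ E := fun i a a' =>
    Finset.mem_union_left _ (Finset.mem_image.2 ⟨(i, a, a'), Finset.mem_univ _, rfl⟩)
  have hE2 : ∀ i a a', β0 (((t i)⁻¹ : Rˣ) : R) a a' ∈ E := fun i a a' =>
    Finset.mem_union_right _ (Finset.mem_union_left _
      (Finset.mem_image.2 ⟨(i, a, a'), Finset.mem_univ _, rfl⟩))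
  have hE3 : ∀ j a, c (χ j) a ∈ E := fun j a =>
    Finset.mem_union_right _ (Finset.mem_union_right _
      (Finset.mem_image.2 ⟨(j, a), Finset.mem_univ _, rfl⟩))
  obtain ⟨p, hpB, hp, hspec⟩ := spec hh E (2 * degB P + 1)
  have hNZ : NeZero p := ⟨hp.out.ne_zero⟩
  refine ⟨Nat.card (Matrix (Fin N) (Fin N) (ZMod p))ˣ, Nat.card_pos, fun r => ?_⟩
  set q := Nat.card (Matrix (Fin N) (Fin N) (ZMod p))ˣ with hq
  by_cases hconst : ∀ n : ℕ, os t P χ ((r + q * n : ℕ) : ℤ) = os t P χ (r : ℤ)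
  · exact Or.inl hconst
  right
  push Not at hconst
  obtain ⟨n₀, hn₀⟩ := hconst
  set x := os t P χ ((r + q * n₀ : ℕ) : ℤ) - os t P χ (r : ℤ) with hx
  have hx0 : x ≠ 0 := sub_ne_zero.2 hn₀
  have hcx : ∃ a, c x a ≠ 0 := by
    by_contra hcon
    push Not at hcon
    exact hx0 (hc_inj x (funext hcon))
  obtain ⟨a₀, ha₀⟩ := hcx
  obtain ⟨φ, hφ0, hφE⟩ := hspec _ ha₀
  -- the matrices over `ℤ_p`
  let β : Rˣ →* (Matrix (Fin N) (Fin N) ℚ_[p])ˣ :=
    (Units.map (φ.mapMatrix (m := Fin N)).toMonoidHom).comp (Units.map β0)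
  have hβ : ∀ (τ : Rˣ) a a', ((β τ : (Matrix (Fin N) (Fin N) ℚ_[p])ˣ) :
      Matrix (Fin N) (Fin N) ℚ_[p]) a a' = φ (β0 (τ : R) a a') := fun τ a a' => rfl
  let ι : ℤ_[p] →+* ℚ_[p] := PadicInt.Coe.ringHom
  have hι : Function.Injective ι := fun x y h => Subtype.ext h
  let J : (Matrix (Fin N) (Fin N) ℤ_[p])ˣ →* (Matrix (Fin N) (Fin N) ℚ_[p])ˣ :=
    Units.map (ι.mapMatrix (m := Fin N)).toMonoidHom
  have hmap_inj : ∀ X Y : Matrix (Fin N) (Fin N) ℤ_[p], ι.mapMatrix X = ι.mapMatrix Y → X = Y := by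
    intro X Y hXY
    ext a a'
    exact hι (congrFun (congrFun hXY a) a')
  let M : Fin D → Matrix (Fin N) (Fin N) ℤ_[p] := fun i a a' =>
    ⟨φ (β0 (t i : R) a a'), hφE _ (hE1 i a a')⟩
  let M' : Fin D → Matrix (Fin N) (Fin N) ℤ_[p] := fun i a a' =>
    ⟨φ (β0 (((t i)⁻¹ : Rˣ) : R) a a'), hφE _ (hE2 i a a')⟩
  have hM : ∀ i, ι.mapMatrix (M i) = ((β (t i) : (Matrix (Fin N) (Fin N) ℚ_[p])ˣ) :
      Matrix (Fin N) (Fin N) ℚ_[p]) := fun i => rfl
  have hM' : ∀ i, ι.mapMatrix (M' i) = ((β (t i)⁻¹ : (Matrix (Fin N) (Fin N) ℚ_[p])ˣ) :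
      Matrix (Fin N) (Fin N) ℚ_[p]) := fun i => rfl
  let Bm : Fin D → (Matrix (Fin N) (Fin N) ℤ_[p])ˣ := fun i =>
    ⟨M i, M' i, hmap_inj _ _ (by
      rw [map_mul, hM, hM', ← Units.val_mul, ← map_mul, mul_inv_cancel, map_one, map_one]
      rfl), hmap_inj _ _ (by
      rw [map_mul, hM, hM', ← Units.val_mul, ← map_mul, inv_mul_cancel, map_one, map_one]
      rfl)⟩
  have hJ : ∀ i, J (Bm i) = β (t i) := fun i => Units.ext (hM i)
  have hmats : ∀ (j : Fin m) (n : ℤ), J (mats Bm P j n) =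
      β (List.ofFn fun i => t i ^ (P i j).eval n).prod := by
    intro j n
    rw [mats, map_list_prod, map_list_prod, List.map_ofFn, List.map_ofFn]
    congr 2
    funext i
    simp only [Function.comp_apply, map_zpow, hJ]
  let vb : Fin m → Fin N → ℤ_[p] := fun j a => ⟨φ (c (χ j) a), hφE _ (hE3 j a)⟩
  have hkey : ∀ (n : ℤ) (a : Fin N), ι (orbs Bm P vb n a) = φ (c (os t P χ n) a) := by
    intro n a
    rw [os, hc_sum, orbs, Finset.sum_apply, Finset.sum_apply, map_sum, map_sum]
    apply Finset.sum_congr rfl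
    intro j _
    rw [hc_smul, Matrix.mulVec, Matrix.mulVec, dotProduct, dotProduct, map_sum, map_sum]
    apply Finset.sum_congr rfl
    intro a' _
    rw [map_mul, map_mul, ← hβ, ← hmats]
    rfl
  rcases orbs_classes Bm P vb hpB hq r with h1 | ⟨K, hK⟩
  · exfalso
    apply hφ0
    have h2 := congrArg ι (congrFun (h1 n₀) a₀)
    rw [hkey, hkey] at h2
    have h3 : os t P χ ((r + q * n₀ : ℕ) : ℤ) = x + os t P χ (r : ℤ) := by
      rw [hx, sub_add_cancel]
    rw [h3, hc_add, Pi.add_apply, map_add] at h2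
    exact add_eq_right.1 h2
  · refine ⟨K, fun w S hS => ?_⟩
    rcases S.eq_empty_or_nonempty with h0 | ⟨n₁, hn₁⟩
    · rw [h0, Finset.card_empty]
      exact Nat.zero_le _
    · refine hK (orbs Bm P vb ((r + q * n₁ : ℕ) : ℤ)) S fun n hn => ?_
      funext a
      apply hι
      rw [hkey, hkey, hS n hn, hS n₁ hn₁]

end

end Pool.Agent.V5helper56.CC
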