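import Pool.Agent.V5helper56.AN.Pol

/-!
# Polynomial sequences in abelian groups and in commutative rings
-/

set_option autoImplicit false

open Polynomial fwdDiff

noncomputable section

namespace Pool.Agent.V5helper56.CC

open Pool.Agent.V5helper56.AN (ch)

/-- integer valued polynomials -/
def IVP (p : ℤ → ℤ) : Prop := ∃ r : ℚ[X], ∀ n : ℤ, (p n : ℚ) = r.eval (n : ℚ)

theorem IVP.const (c : ℤ) : IVP fun _ => c := ⟨C (c : ℚ), fun n => by rw [eval_C]⟩

theorem IVP.mul {p p' : ℤ → ℤ} (h : IVP p) (h' : IVP p') : IVP fun n => p n * p' n := by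
  obtain ⟨r, hr⟩ := h
  obtain ⟨r', hr'⟩ := h'
  exact ⟨r * r', fun n => by rw [Int.cast_mul, hr, hr', eval_mul]⟩

theorem IVP.shift {p : ℤ → ℤ} (h : IVP p) (a q : ℤ) : IVP fun n => p (a + q * n) := by
  obtain ⟨r, hr⟩ := h
  refine ⟨r.comp (C (a : ℚ) + C (q : ℚ) * X), fun n => ?_⟩
  rw [hr, eval_comp]
  congr 1
  simp

theorem choose_cast (z : ℤ) (k : ℕ) : ((Ring.choose z k : ℤ) : ℚ) = (ch k).eval (z : ℚ) := by
  have h1 := Ring.descPochhammer_eq_factorial_smul_choose (R := ℤ) z k
  rw [← Polynomial.eval_eq_smeval, nsmul_eq_mul] at h1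
  have h2 : ((((descPochhammer ℤ k).eval z : ℤ)) : ℚ) = (descPochhammer ℚ k).eval (z : ℚ) := by
    have h3 := Polynomial.eval_map_apply (p := descPochhammer ℤ k) (f := Int.castRingHom ℚ) (x := z)
    rw [descPochhammer_map] at h3
    simpa using h3.symm
  have h4 : (k.factorial : ℚ) ≠ 0 := by exact_mod_cast k.factorial_ne_zero
  rw [ch, eval_mul, eval_C, ← h2, h1]
  push_cast
  field_simp

theorem IVP.choose {p : ℤ → ℤ} (h : IVP p) (k : ℕ) : IVP fun n => Ring.choose (p n) k := by
  obtain ⟨r, hr⟩ := h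
  exact ⟨(ch k).comp r, fun n => by rw [choose_cast, hr, eval_comp]⟩

theorem IVP.poly (P : ℤ[X]) : IVP fun n => P.eval n := by
  refine ⟨P.map (Int.castRingHom ℚ), fun n => ?_⟩
  have := Polynomial.eval_map_apply (p := P) (f := Int.castRingHom ℚ) (x := n)
  simpa using this.symm

theorem IVP.diff {p : ℤ → ℤ} (h : IVP p) : ∃ B : ℕ, ∀ b, B ≤ b → (fwdDiff 1)^[b] p = 0 := by
  obtain ⟨r, hr⟩ := h
  refine ⟨r.natDegree + 1, fun b hb => ?_⟩
  have key : ∀ (b : ℕ) (p : ℤ → ℤ) (f : ℚ → ℚ), (∀ n : ℤ, (p n : ℚ) = f n) →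
      ∀ n : ℤ, (((fwdDiff 1)^[b] p n : ℤ) : ℚ) = (fwdDiff 1)^[b] f (n : ℚ) := by
    intro b
    induction b with
    | zero => exact fun p f h n => h n
    | succ b ih =>
      intro p f h n
      rw [Function.iterate_succ_apply, Function.iterate_succ_apply]
      refine ih _ _ (fun n => ?_) n
      simp only [fwdDiff]
      rw [Int.cast_sub, h, h]
      push_cast
      rfl
  funext n
  have h1 := key b p r.eval hr n
  have h2 := Polynomial.fwdDiff_iter_eq_zero_of_degree_lt (P := r) (n := b) (by omega)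
  rw [h2] at h1
  simpa using h1

section PZ

variable {A A' : Type*} [AddCommGroup A] [AddCommGroup A']

variable (A) in
/-- polynomial sequences -/
def PZ : AddSubgroup (ℤ → A) :=
  AddSubgroup.closure {f | ∃ p : ℤ → ℤ, IVP p ∧ ∃ a : A, f = fun n => p n • a}

theorem PZ_mk {p : ℤ → ℤ} (hp : IVP p) (a : A) : (fun n => p n • a) ∈ PZ A :=
  AddSubgroup.subset_closure ⟨p, hp, a, rfl⟩

theorem PZ_const (a : A) : (fun _ : ℤ => a) ∈ PZ A := by
  have := PZ_mk (IVP.const 1) a
  simpa using this

theorem PZ_map (φ : A →+ A') {f : ℤ → A} (hf : f ∈ PZ A) : (fun n => φ (f n)) ∈ PZ A' := by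
  induction hf using AddSubgroup.closure_induction with
  | mem f hf =>
    obtain ⟨p, hp, a, rfl⟩ := hf
    simp only [map_zsmul]
    exact PZ_mk hp _
  | zero =>
    simp only [Pi.zero_apply, map_zero]
    exact (PZ A').zero_mem
  | add f g _ _ h h' =>
    simp only [Pi.add_apply, map_add]
    exact (PZ A').add_mem h h'
  | neg f _ h =>
    simp only [Pi.neg_apply, map_neg]
    exact (PZ A').neg_mem h

theorem PZ_sum {J : Type*} (s : Finset J) {f : J → ℤ → A} (hf : ∀ j ∈ s, f j ∈ PZ A) :
    (fun n => ∑ j ∈ s, f j n) ∈ PZ A := by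
  have h := AddSubgroup.sum_mem (PZ A) hf
  have e : ∑ j ∈ s, f j = fun n => ∑ j ∈ s, f j n := by
    funext n
    rw [Finset.sum_apply]
  rwa [e] at h

theorem PZ_shift {f : ℤ → A} (hf : f ∈ PZ A) (a q : ℤ) : (fun n => f (a + q * n)) ∈ PZ A := by
  induction hf using AddSubgroup.closure_induction with
  | mem f hf =>
    obtain ⟨p, hp, c, rfl⟩ := hf
    exact PZ_mk (hp.shift a q) c
  | zero => exact (PZ A).zero_mem
  | add f g _ _ h h' => exact (PZ A).add_mem h h'
  | neg f _ h => exact (PZ A).neg_mem h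

theorem iter_zsmul (p : ℤ → ℤ) (a : A) (b : ℕ) :
    (fwdDiff 1)^[b] (fun n => p n • a) = fun n => (fwdDiff 1)^[b] p n • a := by
  induction b generalizing p with
  | zero => rfl
  | succ b ih =>
    rw [Function.iterate_succ_apply, Function.iterate_succ_apply]
    have e : fwdDiff 1 (fun n => p n • a) = fun n => (fwdDiff 1 p n) • a := by
      funext n
      simp only [fwdDiff]
      rw [sub_smul]
    rw [e, ih]

theorem PZ_diff {f : ℤ → A} (hf : f ∈ PZ A) : ∃ B : ℕ, ∀ b, B ≤ b → (fwdDiff 1)^[b] f = 0 := by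
  induction hf using AddSubgroup.closure_induction with
  | mem f hf =>
    obtain ⟨p, hp, a, rfl⟩ := hf
    obtain ⟨B, hB⟩ := hp.diff
    refine ⟨B, fun b hb => ?_⟩
    rw [iter_zsmul, hB b hb]
    funext n
    simp
  | zero =>
    refine ⟨0, fun b _ => ?_⟩
    induction b with
    | zero => rfl
    | succ b ih =>
      rw [Function.iterate_succ_apply]
      have e : fwdDiff 1 (0 : ℤ → A) = 0 := by
        funext n
        simp [fwdDiff]
      rw [e]
      exact ih (Nat.zero_le _)
  | add f g _ _ h h' =>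
    obtain ⟨B, hB⟩ := h
    obtain ⟨B', hB'⟩ := h'
    refine ⟨max B B', fun b hb => ?_⟩
    rw [fwdDiff_iter_add, hB b ((le_max_left _ _).trans hb), hB' b ((le_max_right _ _).trans hb),
      add_zero]
  | neg f _ h =>
    obtain ⟨B, hB⟩ := h
    refine ⟨B, fun b hb => ?_⟩
    have e : -f = (-1 : ℤ) • f := by simp
    rw [e, fwdDiff_iter_const_smul, hB b hb, smul_zero]

end PZ

section ring

variable {R : Type*} [CommRing R]

theorem PZ_mul {f g : ℤ → R} (hf : f ∈ PZ R) (hg : g ∈ PZ R) : (fun n => f n * g n) ∈ PZ R := by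
  induction hf using AddSubgroup.closure_induction with
  | mem f hf =>
    obtain ⟨p, hp, a, rfl⟩ := hf
    induction hg using AddSubgroup.closure_induction with
    | mem g hg =>
      obtain ⟨p', hp', a', rfl⟩ := hg
      have h := PZ_mk (hp.mul hp') (a * a')
      have e : (fun n => (p n * p' n) • (a * a')) = fun n => (p n • a) * (p' n • a') := by
        funext n
        rw [smul_mul_smul_comm]
      rwa [e] at h
    | zero =>
      have e : (fun n => p n • a * (0 : ℤ → R) n) = 0 := by
        funext n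
        simp
      rw [e]
      exact (PZ R).zero_mem
    | add g g' _ _ h h' =>
      have e : (fun n => p n • a * (g + g') n) = (fun n => p n • a * g n) +
          fun n => p n • a * g' n := by
        funext n
        simp [mul_add]
      rw [e]
      exact (PZ R).add_mem h h'
    | neg g _ h =>
      have e : (fun n => p n • a * (-g) n) = -fun n => p n • a * g n := by
        funext n
        simp
      rw [e]
      exact (PZ R).neg_mem h
  | zero =>
    have e : (fun n => (0 : ℤ → R) n * g n) = 0 := by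
      funext n
      simp
    rw [e]
    exact (PZ R).zero_mem
  | add f f' _ _ h h' =>
    have e : (fun n => (f + f') n * g n) = (fun n => f n * g n) + fun n => f' n * g n := by
      funext n
      simp [add_mul]
    rw [e]
    exact (PZ R).add_mem h h'
  | neg f _ h =>
    have e : (fun n => (-f) n * g n) = -fun n => f n * g n := by
      funext n
      simp
    rw [e]
    exact (PZ R).neg_mem h

/-- powers of a unipotent unit -/
theorem zpow_unip {t : Rˣ} {K : ℕ} (hK : ((t : R) - 1) ^ K = 0) (z : ℤ) :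
    ((t ^ z : Rˣ) : R) = ∑ k ∈ Finset.range (K + 1), (Ring.choose z k) • ((t : R) - 1) ^ k := by
  set x : R := (t : R) - 1 with hx
  have ht : (t : R) = 1 + x := by rw [hx]; ring
  set F : ℤ → R := fun z => ∑ k ∈ Finset.range (K + 1), (Ring.choose z k) • x ^ k with hF
  have hK1 : x ^ (K + 1) = 0 := by rw [pow_succ, hK, zero_mul]
  have hF0 : F 0 = 1 := by
    rw [hF]
    simp only
    rw [Finset.sum_range_succ', Ring.choose_zero_right, pow_zero, one_smul,
      Finset.sum_eq_zero (fun k _ => by rw [Ring.choose_zero_succ, zero_smul]), zero_add]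
  have hF1 : ∀ z : ℤ, F (z + 1) = t * F z := by
    intro z
    have e2 : x * F z = ∑ k ∈ Finset.range K, (Ring.choose z k) • x ^ (k + 1) := by
      rw [hF]
      simp only
      rw [Finset.mul_sum, Finset.sum_range_succ]
      have e3 : x * ((Ring.choose z K) • x ^ K) = 0 := by
        rw [mul_smul_comm, ← pow_succ', hK1, smul_zero]
      rw [e3, add_zero]
      exact Finset.sum_congr rfl fun k _ => by rw [mul_smul_comm, ← pow_succ']
    rw [ht, add_mul, one_mul, e2, hF]
    simp only
    rw [Finset.sum_range_succ', Finset.sum_range_succ' (fun k => (Ring.choose z k) • x ^ k),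
      Ring.choose_zero_right, Ring.choose_zero_right, add_right_comm, ← Finset.sum_add_distrib]
    congr 1
    apply Finset.sum_congr rfl
    intro k _
    rw [Ring.choose_succ_succ, add_smul, add_comm]
  show ((t ^ z : Rˣ) : R) = F z
  induction z using Int.induction_on with
  | zero => rw [zpow_zero, Units.val_one, hF0]
  | succ n ih => rw [zpow_add_one, mul_comm, Units.val_mul, ih, hF1]
  | pred n ih =>
    have h2 := hF1 (-(n : ℤ) - 1)
    rw [sub_add_cancel] at h2
    rw [zpow_sub_one, mul_comm, Units.val_mul, ih, h2, ← mul_assoc, Units.inv_mul, one_mul]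

theorem PZ_zpow {t : Rˣ} {K : ℕ} (hK : ((t : R) - 1) ^ K = 0) (P : ℤ[X]) :
    (fun n => ((t ^ P.eval n : Rˣ) : R)) ∈ PZ R := by
  have e : (fun n => ((t ^ P.eval n : Rˣ) : R)) = fun n => ∑ k ∈ Finset.range (K + 1),
      (Ring.choose (P.eval n) k) • ((t : R) - 1) ^ k := by
    funext n
    exact zpow_unip hK _
  rw [e]
  exact PZ_sum _ fun k _ => PZ_mk ((IVP.poly P).choose k) _

theorem PZ_list {K : ℕ} (l : List (Rˣ × ℤ[X])) (hl : ∀ z ∈ l, ((z.1 : R) - 1) ^ K = 0) :
    (fun n => (((l.map fun z => z.1 ^ z.2.eval n).prod : Rˣ) : R)) ∈ PZ R := by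
  induction l with
  | nil =>
    simp only [List.map_nil, List.prod_nil, Units.val_one]
    exact PZ_const 1
  | cons z l ih =>
    simp only [List.map_cons, List.prod_cons, Units.val_mul]
    exact PZ_mul (PZ_zpow (hl z List.mem_cons_self) _)
      (ih fun z' hz' => hl z' (List.mem_cons_of_mem _ hz'))

end ring

end Pool.Agent.V5helper56.CC
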