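import Pool.Agent.V5helper56.CC.ArtinRees

/-!
# The dichotomy for finitely generated rings and for actions of `ℤ^D`
-/

set_option autoImplicit false

open Polynomial TensorProduct

noncomputable section

namespace Pool.Agent.V5helper56.CC

variable {D m : ℕ}

/-- the dichotomy is inherited along injections -/
theorem Dich.of_inj {W W' : Type*} {u : ℤ → W} {u' : ℤ → W'} {q : ℕ} (h : Dich u' q)
    (hu : ∀ n n', u' n = u' n' ↔ u n = u n') : Dich u q := by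
  intro r
  rcases h r with h1 | ⟨K, hK⟩
  · exact Or.inl fun n => (hu _ _).1 (h1 n)
  · refine Or.inr ⟨K, fun w s hs => ?_⟩
    rcases s.eq_empty_or_nonempty with h0 | ⟨n₁, hn₁⟩
    · rw [h0, Finset.card_empty]
      exact Nat.zero_le _
    · exact hK (u' ((r + q * n₁ : ℕ) : ℤ)) s fun n hn => (hu _ _).2 ((hs n hn).trans (hs n₁ hn₁).symm)

/-- **torsion-free modules over finitely generated rings** -/
theorem dich_int {R N : Type*} [CommRing R] [Algebra.FiniteType ℤ R] [AddCommGroup N] [Module R N]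
    (htf : ∀ (z : ℤ) (x : N), z ≠ 0 → z • x = 0 → x = 0)
    (t : Fin D → Rˣ) (P : Fin D → Fin m → ℤ[X]) (χ : Fin m → N) :
    ∃ q : ℕ, 1 ≤ q ∧ Dich (os t P χ) q := by
  classical
  have hst : IsScalarTower ℤ R N := inferInstance
  let g : R →ₐ[ℤ] Module.End ℚ (ℚ ⊗[ℤ] N) :=
    (Module.End.baseChangeHom ℤ ℚ N).comp (Algebra.lsmul ℤ ℤ N)
  let φ : (ℚ ⊗[ℤ] R) →ₐ[ℚ] Module.End ℚ (ℚ ⊗[ℤ] N) :=
    Algebra.TensorProduct.lift (Algebra.ofId ℚ (Module.End ℚ (ℚ ⊗[ℤ] N))) g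
      (fun x y => Algebra.commutes x (g y))
  letI modV : Module (ℚ ⊗[ℤ] R) (ℚ ⊗[ℤ] N) := Module.compHom _ φ.toRingHom
  have hsm : ∀ (r : R) (x : N), ((1 : ℚ) ⊗ₜ[ℤ] r) • ((1 : ℚ) ⊗ₜ[ℤ] x) = (1 : ℚ) ⊗ₜ[ℤ] (r • x) := by
    intro r x
    show φ ((1 : ℚ) ⊗ₜ[ℤ] r) ((1 : ℚ) ⊗ₜ[ℤ] x) = _
    rw [Algebra.TensorProduct.lift_tmul, map_one, one_mul]
    rfl
  let ir : R →+* ℚ ⊗[ℤ] R := (Algebra.TensorProduct.includeRight : R →ₐ[ℤ] ℚ ⊗[ℤ] R).toRingHom
  have hir : ∀ r, ir r = (1 : ℚ) ⊗ₜ[ℤ] r := fun r => rfl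
  set V' : Submodule (ℚ ⊗[ℤ] R) (ℚ ⊗[ℤ] N) :=
    Submodule.span (ℚ ⊗[ℤ] R) (Set.range fun j => (1 : ℚ) ⊗ₜ[ℤ] (χ j)) with hV'
  have hfin : Module.Finite (ℚ ⊗[ℤ] R) V' := Module.Finite.span_of_finite _ (Set.finite_range _)
  let χ' : Fin m → V' := fun j => ⟨(1 : ℚ) ⊗ₜ[ℤ] (χ j), Submodule.subset_span ⟨j, rfl⟩⟩
  let t' : Fin D → (ℚ ⊗[ℤ] R)ˣ := fun i => Units.map (ir : R →* ℚ ⊗[ℤ] R) (t i)
  have hft : Algebra.FiniteType ℚ (ℚ ⊗[ℤ] R) := inferInstance
  obtain ⟨q, hq, hd⟩ := dich t' P χ'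
  refine ⟨q, hq, hd.of_inj fun n n' => ?_⟩
  have hval : ∀ n : ℤ, ((os t' P χ' n : V') : ℚ ⊗[ℤ] N) = (1 : ℚ) ⊗ₜ[ℤ] (os t P χ n) := by
    intro n
    rw [os, os, Submodule.coe_sum, TensorProduct.tmul_sum]
    apply Finset.sum_congr rfl
    intro j _
    rw [← hsm]
    have h1 : ((List.ofFn fun i => t' i ^ (P i j).eval n).prod : (ℚ ⊗[ℤ] R)ˣ) =
        Units.map (ir : R →* ℚ ⊗[ℤ] R) ((List.ofFn fun i => t i ^ (P i j).eval n).prod) := by
      rw [map_list_prod, List.map_ofFn]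
      congr 2
      funext i
      simp only [Function.comp_apply, map_zpow, t']
    rw [h1]
    rfl
  have hinj : ∀ x y : N, (1 : ℚ) ⊗ₜ[ℤ] x = (1 : ℚ) ⊗ₜ[ℤ] y → x = y := by
    intro x y hxy
    have h1 : IsLocalizedModule (nonZeroDivisors ℤ) (TensorProduct.mk ℤ ℚ N 1) :=
      (isLocalizedModule_iff_isBaseChange (nonZeroDivisors ℤ) ℚ _).2
        (TensorProduct.isBaseChange ℤ N ℚ)
    have h2 : (TensorProduct.mk ℤ ℚ N 1) (x - y) = 0 := by
      rw [map_sub]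
      exact sub_eq_zero.2 hxy
    rw [IsLocalizedModule.eq_zero_iff (nonZeroDivisors ℤ)] at h2
    obtain ⟨z, hz⟩ := h2
    exact sub_eq_zero.1 (htf z (x - y) (nonZeroDivisors.ne_zero z.2) hz)
  constructor
  · intro h
    have h1 := congrArg (fun z : V' => (z : ℚ ⊗[ℤ] N)) h
    simp only [hval] at h1
    exact hinj _ _ h1
  · intro h
    apply Subtype.ext
    rw [hval, hval, h]

/-- **Actions of `ℤ^D` on an abelian group.** -/
theorem seq_dich {Q : Type*} [AddCommGroup Q] (ρ : Multiplicative (Fin D → ℤ) →* Module.End ℤ Q)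
    (K A : AddSubgroup Q) (hK : ∀ g, ∀ c ∈ K, ρ g c = c) (hA : ∀ g, ∀ a ∈ A, ρ g a ∈ A)
    (htf : ∀ z : ℤ, z ≠ 0 → ∀ a ∈ A, z • a ∈ K → a ∈ K)
    (P : Fin D → Fin m → ℤ[X]) (χ : Fin m → Q) (hχ : ∀ j, χ j ∈ A) (U : ℤ → Q)
    (hU : ∀ n, U n = ∑ j, ρ (Multiplicative.ofAdd fun i => (P i j).eval n) (χ j)) :
    ∃ q : ℕ, 1 ≤ q ∧ ∀ r : ℕ,
      (∃ (B : ℕ) (c : ℕ → Q), (∀ k, c k ∈ K) ∧ ∀ n : ℕ,
        U ((r + q * n : ℕ) : ℤ) - U (r : ℤ) = ∑ k ∈ Finset.range B, (n.choose k) • c k) ∨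
      ∃ M : ℕ, ∀ (w : Q) (s : Finset ℕ), (∀ n ∈ s, U ((r + q * n : ℕ) : ℤ) - w ∈ K) →
        s.card ≤ M := by
  classical
  set G := Multiplicative (Fin D → ℤ) with hG
  let R := MonoidAlgebra ℤ G
  have hfg : Monoid.FG G := by
    have h1 : AddGroup.FG (Fin D → ℤ) := Module.Finite.iff_addGroup_fg.1 inferInstance
    have h2 : AddMonoid.FG (Fin D → ℤ) := AddGroup.fg_iff_addMonoid_fg.1 h1
    infer_instance
  have hft : Algebra.FiniteType ℤ (MonoidAlgebra ℤ G) := MonoidAlgebra.finiteType_of_fg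
  have hnoeth : IsNoetherianRing R := Algebra.FiniteType.isNoetherianRing ℤ (MonoidAlgebra ℤ G)
  have hft' : @Algebra.FiniteType ℤ R _ _ (Ring.toIntAlgebra R) := by
    have h0 : (algebraMap ℤ (MonoidAlgebra ℤ G)).FiniteType := RingHom.finiteType_algebraMap.2 hft
    have e : algebraMap ℤ (MonoidAlgebra ℤ G) = Int.castRingHom R := RingHom.ext_int _ _
    rw [e] at h0
    exact (@RingHom.finiteType_algebraMap ℤ R _ _ (Ring.toIntAlgebra R)).1 h0
  let Φ : R →ₐ[ℤ] Module.End ℤ Q := MonoidAlgebra.lift ℤ (Module.End ℤ Q) G ρ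
  letI modQ : Module R Q := Module.compHom Q Φ.toRingHom
  have hof : ∀ (g : G) (x : Q), (MonoidAlgebra.of ℤ G g : R) • x = ρ g x := by
    intro g x
    show Φ (MonoidAlgebra.of ℤ G g) x = _
    rw [MonoidAlgebra.lift_of]
  have hsub : ∀ (S : AddSubgroup Q), (∀ g, ∀ a ∈ S, ρ g a ∈ S) → ∀ (z : R), ∀ a ∈ S,
      z • a ∈ S := by
    intro S hS z a ha
    induction z using MonoidAlgebra.induction_on with
    | of g =>
      rw [hof]
      exact hS g a ha
    | add z z' h h' =>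
      rw [add_smul]
      exact S.add_mem h h'
    | smul c z h =>
      rw [smul_assoc]
      exact S.zsmul_mem h c
  let KS : Submodule R Q :=
    { K with smul_mem' := fun z a ha => hsub K (fun g c hc => by rw [hK g c hc]; exact hc) z a ha }
  let AS : Submodule R Q := { A with smul_mem' := fun z a ha => hsub A hA z a ha }
  have hKS : ∀ x, x ∈ KS ↔ x ∈ K := fun x => Iff.rfl
  have hAS : ∀ x, x ∈ AS ↔ x ∈ A := fun x => Iff.rfl
  -- the units
  let F : G →* Rˣ := (Units.map (MonoidAlgebra.of ℤ G)).comp (toUnits (G := G)).toMonoidHom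
  have hF : ∀ (g : G) (x : Q), ((F g : Rˣ) : R) • x = ρ g x := fun g x => hof g x
  let t : Fin D → Rˣ := fun i => F (Multiplicative.ofAdd (Pi.single i 1))
  have ht : ∀ a : Fin D → ℤ, (List.ofFn fun i => t i ^ a i).prod = F (Multiplicative.ofAdd a) := by
    intro a
    have h1 : (List.ofFn fun i => (Multiplicative.ofAdd (Pi.single i (1 : ℤ)) : G) ^ a i).prod =
        Multiplicative.ofAdd a := by
      rw [List.prod_ofFn]
      apply Multiplicative.toAdd.injective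
      rw [toAdd_prod]
      simp only [toAdd_zpow, toAdd_ofAdd]
      funext k
      rw [Finset.sum_apply, Finset.sum_eq_single k]
      · simp
      · intro b _ hb
        simp [Pi.single_apply, Ne.symm hb]
      · intro h
        exact absurd (Finset.mem_univ k) h
    rw [← h1, map_list_prod, List.map_ofFn]
    congr 2
    funext i
    simp only [Function.comp_apply, map_zpow, t]
  have hUos : ∀ n, U n = os t P χ n := by
    intro n
    rw [hU, os]
    apply Finset.sum_congr rfl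
    intro j _
    rw [ht, hF]
  -- the quotient
  let N' : Submodule R (Q ⧸ KS) := Submodule.span R (Set.range fun j => KS.mkQ (χ j))
  have hN' : ∀ y ∈ N', ∃ a ∈ A, KS.mkQ a = y := by
    intro y hy
    have h1 : N' ≤ AS.map KS.mkQ := by
      rw [Submodule.span_le]
      rintro _ ⟨j, rfl⟩
      exact ⟨χ j, hχ j, rfl⟩
    obtain ⟨a, ha, h2⟩ := h1 hy
    exact ⟨a, ha, h2⟩
  have htf' : ∀ (z : ℤ) (x : N'), z ≠ 0 → z • x = 0 → x = 0 := by
    intro z x hz hzx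
    obtain ⟨a, ha, hax⟩ := hN' x.1 x.2
    have h1 : z • KS.mkQ a = 0 := by
      rw [hax]
      exact congrArg Subtype.val hzx
    rw [← map_zsmul, Submodule.mkQ_apply, Submodule.Quotient.mk_eq_zero] at h1
    have h2 := htf z hz a ha h1
    apply Subtype.ext
    rw [← hax, Submodule.mkQ_apply]
    exact (Submodule.Quotient.mk_eq_zero KS).2 h2
  let χ' : Fin m → N' := fun j => ⟨KS.mkQ (χ j), Submodule.subset_span ⟨j, rfl⟩⟩
  obtain ⟨q, hq, hd⟩ := dich_int htf' t P χ'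
  have hos' : ∀ n, ((os t P χ' n : N') : Q ⧸ KS) = KS.mkQ (U n) := by
    intro n
    rw [hUos, os, os, Submodule.coe_sum, map_sum]
    apply Finset.sum_congr rfl
    intro j _
    rw [map_smul]
    rfl
  have heq : ∀ n n', os t P χ' n = os t P χ' n' ↔ U n - U n' ∈ K := by
    intro n n'
    rw [← hKS, ← Submodule.Quotient.eq, ← Submodule.mkQ_apply, ← Submodule.mkQ_apply, ← hos',
      ← hos']
    exact Subtype.ext_iff
  refine ⟨q, hq, fun r => ?_⟩
  rcases hd r with h1 | ⟨M, hM⟩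
  · left
    have h2 : ∀ n : ℕ, os t P χ ((r + q * n : ℕ) : ℤ) - os t P χ (r : ℤ) ∈ KS := by
      intro n
      rw [← hUos, ← hUos]
      exact (heq _ _).1 (h1 n)
    obtain ⟨B, c, hc, h3⟩ := poly_phase t P χ KS (fun i c hc => by
      rw [hF]
      exact hK _ c hc) r q h2
    refine ⟨B, c, hc, fun n => ?_⟩
    rw [hUos, hUos]
    exact h3 n
  · right
    refine ⟨M, fun w s hs => ?_⟩
    rcases s.eq_empty_or_nonempty with h0 | ⟨n₁, hn₁⟩
    · rw [h0, Finset.card_empty]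
      exact Nat.zero_le _
    · refine hM (os t P χ' ((r + q * n₁ : ℕ) : ℤ)) s fun n hn => ?_
      rw [heq]
      have h4 := K.sub_mem (hs n hn) (hs n₁ hn₁)
      rwa [sub_sub_sub_cancel_right] at h4

end Pool.Agent.V5helper56.CC
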