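import Mathlib

/-!
# Forward differences of polynomial powers of `p`-adic matrices congruent to `1` modulo `p`
(adapted from `Pool/Agent/TH635/FB/Pad.lean`, which treats integer matrices)
-/

set_option autoImplicit false

open Finset fwdDiff Polynomial

noncomputable section

namespace Pool.Agent.V5helper56.CC

variable {p : ℕ} [hp : Fact p.Prime] {d : ℕ}

/-- all entries have `p`-adic norm at most `c` -/
def Sm (p : ℕ) [Fact p.Prime] (c : ℝ) (M : Matrix (Fin d) (Fin d) ℤ_[p]) : Prop :=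
  ∀ a b, ‖M a b‖ ≤ c

theorem Sm.mono {c c' : ℝ} (h : c ≤ c') {M : Matrix (Fin d) (Fin d) ℤ_[p]} (hM : Sm p c M) :
    Sm p c' M := fun a b => (hM a b).trans h

theorem Sm.add {c : ℝ} {M N : Matrix (Fin d) (Fin d) ℤ_[p]} (hM : Sm p c M) (hN : Sm p c N) :
    Sm p c (M + N) := by
  intro a b
  rw [Matrix.add_apply]
  exact (PadicInt.nonarchimedean _ _).trans (max_le (hM a b) (hN a b))

theorem norm_sum_le' {ι : Type*} (s : Finset ι) (y : ι → ℤ_[p]) {c : ℝ} (hc : 0 ≤ c)
    (h : ∀ k ∈ s, ‖y k‖ ≤ c) : ‖∑ k ∈ s, y k‖ ≤ c := by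
  classical
  induction s using Finset.induction_on with
  | empty => simpa using hc
  | insert a s ha ih =>
    rw [Finset.sum_insert ha]
    exact (PadicInt.nonarchimedean _ _).trans (max_le (h a (Finset.mem_insert_self a s))
      (ih fun k hk => h k (Finset.mem_insert_of_mem hk)))

theorem Sm.mul {c c' : ℝ} (hc : 0 ≤ c) (hc' : 0 ≤ c') {M N : Matrix (Fin d) (Fin d) ℤ_[p]}
    (hM : Sm p c M) (hN : Sm p c' N) : Sm p (c * c') (M * N) := by
  intro a b
  rw [Matrix.mul_apply]
  apply norm_sum_le' _ _ (mul_nonneg hc hc')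
  intro k _
  rw [norm_mul]
  exact mul_le_mul (hM a k) (hN k b) (norm_nonneg _) hc

theorem Sm.zero {c : ℝ} (hc : 0 ≤ c) : Sm p c (0 : Matrix (Fin d) (Fin d) ℤ_[p]) := by
  intro a b
  simpa using hc

theorem Sm.one_le {c : ℝ} (hc : 1 ≤ c) (M : Matrix (Fin d) (Fin d) ℤ_[p]) : Sm p c M := by
  intro a b
  exact (PadicInt.norm_le_one _).trans hc

/-- Leibniz rule with bounds -/
theorem leib {ρ : ℝ} (hρ : 0 ≤ ρ) (i : ℕ) : ∀ (s t : ℕ) (F G : ℤ → Matrix (Fin d) (Fin d) ℤ_[p]),
    (∀ j ≤ i, ∀ n, Sm p (ρ ^ (s + j)) ((fwdDiff 1)^[j] F n)) →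
    (∀ j ≤ i, ∀ n, Sm p (ρ ^ (t + j)) ((fwdDiff 1)^[j] G n)) →
    ∀ n, Sm p (ρ ^ (s + t + i)) ((fwdDiff 1)^[i] (fun n => F n * G n) n) := by
  induction i with
  | zero =>
    intro s t F G hF hG n
    have h1 := hF 0 le_rfl n
    have h2 := hG 0 le_rfl n
    simp only [Function.iterate_zero, id, add_zero] at h1 h2 ⊢
    rw [pow_add]
    exact h1.mul (by positivity) (by positivity) h2
  | succ i ih =>
    intro s t F G hF hG n
    rw [Function.iterate_succ_apply]
    have e1 : fwdDiff 1 (fun n => F n * G n) =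
        (fun n => fwdDiff 1 F n * G (n + 1)) + (fun n => F n * fwdDiff 1 G n) := by
      funext n
      simp only [fwdDiff, Pi.add_apply]
      noncomm_ring
    rw [e1, fwdDiff_iter_add, Pi.add_apply]
    apply Sm.add
    · have h1 := ih (s + 1) t (fwdDiff 1 F) (fun n => G (n + 1)) (fun j hj n => by
        have := hF (j + 1) (by omega) n
        rw [Function.iterate_succ_apply] at this
        have e : s + 1 + j = s + (j + 1) := by ring
        rw [e]
        exact this) (fun j hj n => by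
        rw [fwdDiff_iter_comp_add]
        exact hG j (by omega) _) n
      have e : s + t + (i + 1) = s + 1 + t + i := by ring
      rw [e]
      exact h1
    · have h1 := ih s (t + 1) F (fwdDiff 1 G) (fun j hj n => hF j (by omega) n) (fun j hj n => by
        have := hG (j + 1) (by omega) n
        rw [Function.iterate_succ_apply] at this
        have e : t + 1 + j = t + (j + 1) := by ring
        rw [e]
        exact this) n
      have e : s + t + (i + 1) = s + (t + 1) + i := by ring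
      rw [e]
      exact h1

/-- reduction modulo `p` -/
def red (p : ℕ) [Fact p.Prime] (d : ℕ) :
    (Matrix (Fin d) (Fin d) ℤ_[p])ˣ →* (Matrix (Fin d) (Fin d) (ZMod p))ˣ :=
  Units.map ((PadicInt.toZMod (p := p)).mapMatrix).toMonoidHom

theorem sm_of_red {V : (Matrix (Fin d) (Fin d) ℤ_[p])ˣ} (h : red p d V = 1) :
    Sm p (p : ℝ)⁻¹ ((V : Matrix (Fin d) (Fin d) ℤ_[p]) - 1) := by
  intro a b
  have h1 : ((V : Matrix (Fin d) (Fin d) ℤ_[p])).map (PadicInt.toZMod (p := p)) = 1 := by
    have := congrArg Units.val h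
    exact this
  have h2 : (PadicInt.toZMod (p := p)) (((V : Matrix (Fin d) (Fin d) ℤ_[p]) - 1) a b) = 0 := by
    have h3 : ((V : Matrix (Fin d) (Fin d) ℤ_[p]) - 1).map (PadicInt.toZMod (p := p)) = 0 := by
      have h4 := map_sub ((PadicInt.toZMod (p := p)).mapMatrix)
        (V : Matrix (Fin d) (Fin d) ℤ_[p]) 1
      have h5 : (PadicInt.toZMod (p := p)).mapMatrix (V : Matrix (Fin d) (Fin d) ℤ_[p]) = 1 := h1
      rw [h5, map_one, sub_self] at h4
      exact h4
    exact congrFun (congrFun h3 a) b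
  have h3 : (((V : Matrix (Fin d) (Fin d) ℤ_[p]) - 1) a b) ∈
      RingHom.ker (PadicInt.toZMod (p := p)) := h2
  rw [PadicInt.ker_toZMod, PadicInt.maximalIdeal_eq_span_p] at h3
  have h5 := (PadicInt.norm_le_pow_iff_mem_span_pow
    (((V : Matrix (Fin d) (Fin d) ℤ_[p]) - 1) a b) 1).2 (by rwa [pow_one])
  simpa using h5

variable {U : (Matrix (Fin d) (Fin d) ℤ_[p])ˣ}

/-- Differences of `U ^ e(n) - 1`, `e` polynomial. -/
theorem pw {ρ : ℝ} {D : ℕ} (hρ0 : 0 ≤ ρ) (hρ1 : ρ ≤ 1) (hρ : ρ ^ D = (p : ℝ)⁻¹)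
    (hU : red p d U = 1) (k : ℕ) : k ≤ D → ∀ e : ℤ → ℤ, (fwdDiff 1)^[k + 1] e = 0 →
    ∀ i n, Sm p (ρ ^ (D - k + i))
      ((fwdDiff 1)^[i] (fun n => ((U ^ (e n) : (Matrix (Fin d) (Fin d) ℤ_[p])ˣ) :
        Matrix (Fin d) (Fin d) ℤ_[p]) - 1) n) := by
  have hbase : ∀ z : ℤ, Sm p (ρ ^ D) (((U ^ z : (Matrix (Fin d) (Fin d) ℤ_[p])ˣ) :
      Matrix (Fin d) (Fin d) ℤ_[p]) - 1) := by
    intro z
    rw [hρ]
    apply sm_of_red
    rw [map_zpow, hU, one_zpow]
  induction k with
  | zero =>
    intro _ e he i n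
    have hc : ∀ n, e n = e 0 := by
      have h1 : ∀ n, e (n + 1) = e n := by
        intro n
        have := congrFun he n
        simp only [zero_add, Function.iterate_one, fwdDiff, Pi.zero_apply] at this
        omega
      intro n
      induction n using Int.induction_on with
      | zero => rfl
      | succ i ih => rw [h1, ih]
      | pred i ih =>
        have := h1 (-(i : ℤ) - 1)
        rw [sub_add_cancel] at this
        rw [← this, ih]
    have e1 : (fun n => ((U ^ (e n) : (Matrix (Fin d) (Fin d) ℤ_[p])ˣ) :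
        Matrix (Fin d) (Fin d) ℤ_[p]) - 1) = fun _ => ((U ^ (e 0) : (Matrix (Fin d) (Fin d) ℤ_[p])ˣ) :
        Matrix (Fin d) (Fin d) ℤ_[p]) - 1 := by
      funext n
      rw [hc n]
    rw [e1]
    cases i with
    | zero =>
      simp only [Function.iterate_zero, id, Nat.sub_zero, add_zero]
      exact hbase _
    | succ i =>
      have h2 : ∀ j : ℕ, (fwdDiff 1)^[j] (fun _ : ℤ => (0 : Matrix (Fin d) (Fin d) ℤ_[p])) =
          fun _ => 0 := by
        intro j
        induction j with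
        | zero => rfl
        | succ j ih => rw [Function.iterate_succ_apply, fwdDiff_const, ih]
      rw [Function.iterate_succ_apply, fwdDiff_const, h2]
      exact Sm.zero (by positivity)
  | succ k ih =>
    intro hk e he i
    induction i using Nat.strong_induction_on with
    | _ i ih2 =>
      intro n
      cases i with
      | zero =>
        simp only [Function.iterate_zero, id, add_zero]
        exact (hbase _).mono (pow_le_pow_of_le_one hρ0 hρ1 (by omega))
      | succ i =>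
        rw [Function.iterate_succ_apply]
        have e1 : fwdDiff 1 (fun n => ((U ^ (e n) : (Matrix (Fin d) (Fin d) ℤ_[p])ˣ) :
            Matrix (Fin d) (Fin d) ℤ_[p]) - 1) =
            fun n => ((U ^ (e n) : (Matrix (Fin d) (Fin d) ℤ_[p])ˣ) : Matrix (Fin d) (Fin d) ℤ_[p]) *
              (((U ^ (fwdDiff 1 e n) : (Matrix (Fin d) (Fin d) ℤ_[p])ˣ) :
                Matrix (Fin d) (Fin d) ℤ_[p]) - 1) := by
          funext n
          simp only [fwdDiff]
          rw [mul_sub, mul_one, ← Units.val_mul, ← zpow_add, sub_sub_sub_cancel_right]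
          congr 3
          ring
        rw [e1]
        have h1 := leib (p := p) hρ0 i 0 (D - k)
          (fun n => ((U ^ (e n) : (Matrix (Fin d) (Fin d) ℤ_[p])ˣ) : Matrix (Fin d) (Fin d) ℤ_[p]))
          (fun n => (((U ^ (fwdDiff 1 e n) : (Matrix (Fin d) (Fin d) ℤ_[p])ˣ) :
                Matrix (Fin d) (Fin d) ℤ_[p]) - 1)) (fun j hj n => by
            cases j with
            | zero =>
              simp only [Function.iterate_zero, id, add_zero, pow_zero]
              exact Sm.one_le le_rfl _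
            | succ j =>
              have h2 := ih2 (j + 1) (by omega) n
              have e2 : (fwdDiff 1)^[j + 1] (fun n => ((U ^ (e n) : (Matrix (Fin d) (Fin d) ℤ_[p])ˣ) :
                  Matrix (Fin d) (Fin d) ℤ_[p]) - 1) = (fwdDiff 1)^[j + 1] (fun n =>
                  ((U ^ (e n) : (Matrix (Fin d) (Fin d) ℤ_[p])ˣ) : Matrix (Fin d) (Fin d) ℤ_[p])) := by
                rw [Function.iterate_succ_apply, Function.iterate_succ_apply]
                congr 1
                funext m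
                simp [fwdDiff]
              rw [e2] at h2
              exact h2.mono (pow_le_pow_of_le_one hρ0 hρ1 (by omega)))
          (fun j hj n => ih (by omega) (fwdDiff 1 e) (by
            rw [← Function.iterate_succ_apply]
            exact he) j n) n
        refine h1.mono (le_of_eq ?_)
        congr 1
        omega

/-- The functions with small differences. -/
def PA (p : ℕ) [Fact p.Prime] (ρ : ℝ) (F : ℤ → Matrix (Fin d) (Fin d) ℤ_[p]) : Prop :=
  ∀ i n, Sm p (ρ ^ i) ((fwdDiff 1)^[i] F n)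

theorem PA.mul {ρ : ℝ} (hρ : 0 ≤ ρ) {F G : ℤ → Matrix (Fin d) (Fin d) ℤ_[p]} (hF : PA p ρ F)
    (hG : PA p ρ G) : PA p ρ (fun n => F n * G n) := by
  intro i n
  have := leib (p := p) hρ i 0 0 F G (fun j _ n => by rw [zero_add]; exact hF j n)
    (fun j _ n => by rw [zero_add]; exact hG j n) n
  simpa using this

theorem iter_const (M : Matrix (Fin d) (Fin d) ℤ_[p]) (i : ℕ) :
    (fwdDiff 1)^[i + 1] (fun _ : ℤ => M) = fun _ => 0 := by
  have h2 : ∀ j : ℕ, (fwdDiff 1)^[j] (fun _ : ℤ => (0 : Matrix (Fin d) (Fin d) ℤ_[p])) =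
      fun _ => 0 := by
    intro j
    induction j with
    | zero => rfl
    | succ j ih => rw [Function.iterate_succ_apply, fwdDiff_const, ih]
  rw [Function.iterate_succ_apply, fwdDiff_const, h2]

theorem PA.const {ρ : ℝ} (hρ : 0 ≤ ρ) (M : Matrix (Fin d) (Fin d) ℤ_[p]) :
    PA p ρ (fun _ => M) := by
  intro i n
  cases i with
  | zero => exact Sm.one_le (by simp) _
  | succ i =>
    rw [iter_const]
    exact Sm.zero (by positivity)

theorem PA.pow {ρ : ℝ} {D : ℕ} (hρ0 : 0 ≤ ρ) (hρ1 : ρ ≤ 1) (hρ : ρ ^ D = (p : ℝ)⁻¹)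
    (hU : red p d U = 1) {e : ℤ → ℤ} (he : (fwdDiff 1)^[D + 1] e = 0) :
    PA p ρ (fun n => ((U ^ (e n) : (Matrix (Fin d) (Fin d) ℤ_[p])ˣ) :
        Matrix (Fin d) (Fin d) ℤ_[p])) := by
  intro i n
  cases i with
  | zero => exact Sm.one_le (by simp) _
  | succ i =>
    have h := pw hρ0 hρ1 hρ hU D le_rfl e he (i + 1) n
    have e2 : (fwdDiff 1)^[i + 1] (fun n => ((U ^ (e n) : (Matrix (Fin d) (Fin d) ℤ_[p])ˣ) :
        Matrix (Fin d) (Fin d) ℤ_[p]) - 1) = (fwdDiff 1)^[i + 1] (fun n =>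
        ((U ^ (e n) : (Matrix (Fin d) (Fin d) ℤ_[p])ˣ) : Matrix (Fin d) (Fin d) ℤ_[p])) := by
      rw [Function.iterate_succ_apply, Function.iterate_succ_apply]
      congr 1
      funext m
      simp [fwdDiff]
    rw [e2] at h
    simpa using h

/-- a polynomial power along a residue class -/
theorem PA.poly {ρ : ℝ} {D : ℕ} (hρ0 : 0 ≤ ρ) (hρ1 : ρ ≤ 1) (hρ : ρ ^ D = (p : ℝ)⁻¹)
    {V : (Matrix (Fin d) (Fin d) ℤ_[p])ˣ} {q : ℤ} (hq : q ≠ 0) (hV : red p d (V ^ q) = 1)
    {P : ℤ[X]} (hP : P.natDegree ≤ D) (r : ℤ) :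
    PA p ρ (fun n => ((V ^ (P.eval (r + q * n)) : (Matrix (Fin d) (Fin d) ℤ_[p])ˣ) :
        Matrix (Fin d) (Fin d) ℤ_[p])) := by
  have hdvd : ∀ n : ℤ, q ∣ P.eval (r + q * n) - P.eval r := by
    intro n
    have h1 := P.sub_dvd_eval_sub (r + q * n) r
    rw [add_sub_cancel_left] at h1
    exact (Dvd.intro n rfl).trans h1
  choose e he using hdvd
  have hd : (fwdDiff 1)^[D + 1] e = 0 := by
    have h1 : (fun n : ℤ => P.eval (r + q * n)) = (P.comp (C r + C q * X)).eval := by
      funext n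
      simp
    have h2 : (P.comp (C r + C q * X)).natDegree < D + 1 := by
      have h3 : (C r + C q * X : ℤ[X]).natDegree ≤ 1 := by
        rw [natDegree_C_add]
        exact (natDegree_C_mul_le q X).trans natDegree_X_le
      have h4 := natDegree_comp_le (p := P) (q := (C r + C q * X : ℤ[X]))
      have h5 : P.natDegree * (C r + C q * X : ℤ[X]).natDegree ≤ P.natDegree * 1 :=
        Nat.mul_le_mul_left _ h3
      omega
    have h3 := Polynomial.fwdDiff_iter_eq_zero_of_degree_lt h2
    rw [← h1] at h3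
    have h4 : (fun n : ℤ => P.eval (r + q * n)) = (q • e) + fun _ => P.eval r := by
      funext n
      simp only [Pi.add_apply, Pi.smul_apply, smul_eq_mul]
      have := he n
      linarith
    rw [h4, fwdDiff_iter_add, fwdDiff_iter_const_smul] at h3
    have h5 : (fwdDiff 1)^[D + 1] (fun _ : ℤ => P.eval r) = fun _ => 0 := by
      have h6 : ∀ j : ℕ, (fwdDiff 1)^[j] (fun _ : ℤ => (0 : ℤ)) = fun _ => 0 := by
        intro j
        induction j with
        | zero => rfl
        | succ j ih => rw [Function.iterate_succ_apply, fwdDiff_const, ih]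
      rw [Function.iterate_succ_apply, fwdDiff_const, h6]
    rw [h5] at h3
    funext n
    have h6 := congrFun h3 n
    simp only [Pi.add_apply, Pi.smul_apply, smul_eq_mul, add_zero, Pi.zero_apply] at h6
    exact (mul_eq_zero.1 h6).resolve_left hq
  have e1 : (fun n => ((V ^ (P.eval (r + q * n)) : (Matrix (Fin d) (Fin d) ℤ_[p])ˣ) :
        Matrix (Fin d) (Fin d) ℤ_[p])) = fun n => ((V ^ (P.eval r) : (Matrix (Fin d) (Fin d) ℤ_[p])ˣ) :
        Matrix (Fin d) (Fin d) ℤ_[p]) * (((V ^ q) ^ (e n) : (Matrix (Fin d) (Fin d) ℤ_[p])ˣ) :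
        Matrix (Fin d) (Fin d) ℤ_[p]) := by
    funext n
    rw [← Units.val_mul, ← zpow_mul, ← zpow_add]
    congr 2
    have := he n
    linarith
  rw [e1]
  exact (PA.const hρ0 _).mul hρ0 (PA.pow hρ0 hρ1 hρ hV hd)

/-- products -/
theorem PA.list {ρ : ℝ} (hρ : 0 ≤ ρ) (l : List (ℤ → (Matrix (Fin d) (Fin d) ℤ_[p])ˣ))
    (h : ∀ F ∈ l, PA p ρ (fun n => ((F n : (Matrix (Fin d) (Fin d) ℤ_[p])ˣ) :
      Matrix (Fin d) (Fin d) ℤ_[p]))) :
    PA p ρ (fun n => (((l.map fun F => F n).prod : (Matrix (Fin d) (Fin d) ℤ_[p])ˣ) :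
      Matrix (Fin d) (Fin d) ℤ_[p])) := by
  induction l with
  | nil =>
    simp only [List.map_nil, List.prod_nil]
    exact PA.const hρ _
  | cons F l ih =>
    simp only [List.map_cons, List.prod_cons, Units.val_mul]
    exact (h F (List.mem_cons_self)).mul hρ (ih fun G hG => h G (List.mem_cons_of_mem _ hG))

end Pool.Agent.V5helper56.CC
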