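import Mathlib

/-!
# Specialisation of rational functions to the `p`-adic numbers

For a finite set `E` of elements of `ℚ[y_1, …, y_s][1/h]` there are arbitrarily large primes `p`
such that every nonzero element `x` survives under a homomorphism to `ℚ_p` which maps `E` into
`ℤ_p` (Cassels).
-/

set_option autoImplicit false

open MvPolynomial

namespace Pool.Agent.V5helper56.CC

variable {s : ℕ}

/-- clearing the denominators -/
theorem exists_int (f : MvPolynomial (Fin s) ℚ) : ∃ (c : ℤ) (F : MvPolynomial (Fin s) ℤ),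
    c ≠ 0 ∧ C (c : ℚ) * f = map (Int.castRingHom ℚ) F := by
  induction f using MvPolynomial.induction_on with
  | C a =>
    refine ⟨a.den, C a.num, by exact_mod_cast a.den_nz, ?_⟩
    rw [map_C, ← C_mul]
    congr 1
    show ((a.den : ℤ) : ℚ) * a = (a.num : ℚ)
    rw [Int.cast_natCast, Rat.den_mul_eq_num]
  | add f g hf hg =>
    obtain ⟨c, F, hc, hF⟩ := hf
    obtain ⟨c', F', hc', hF'⟩ := hg
    refine ⟨c * c', C c' * F + C c * F', mul_ne_zero hc hc', ?_⟩
    rw [map_add, map_mul, map_mul, ← hF, ← hF', map_C, map_C]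
    push_cast
    simp only [map_mul, eq_intCast]
    ring
  | mul_X f i hf =>
    obtain ⟨c, F, hc, hF⟩ := hf
    refine ⟨c, F * X i, hc, ?_⟩
    rw [map_mul, ← hF, map_X, mul_assoc]

/-- evaluation at an integer point, with values in `ℚ_p` -/
noncomputable def ev (p : ℕ) [Fact p.Prime] (y : Fin s → ℤ) : MvPolynomial (Fin s) ℚ →+* ℚ_[p] :=
  eval₂Hom (algebraMap ℚ ℚ_[p]) fun i => (y i : ℚ_[p])

theorem ev_int (p : ℕ) [Fact p.Prime] (y : Fin s → ℤ) (F : MvPolynomial (Fin s) ℤ) :
    ev p y (map (Int.castRingHom ℚ) F) = ((eval y F : ℤ) : ℚ_[p]) := by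
  have h : (ev p y).comp (map (Int.castRingHom ℚ)) = (Int.castRingHom ℚ_[p]).comp (eval y) := by
    apply MvPolynomial.ringHom_ext
    · intro a
      simp [ev]
    · intro i
      simp [ev]
  exact RingHom.congr_fun h F

theorem ev_clear (p : ℕ) [Fact p.Prime] (y : Fin s → ℤ) {f : MvPolynomial (Fin s) ℚ} {c : ℤ}
    {F : MvPolynomial (Fin s) ℤ} (h : C (c : ℚ) * f = map (Int.castRingHom ℚ) F) :
    (c : ℚ_[p]) * ev p y f = ((eval y F : ℤ) : ℚ_[p]) := by
  rw [← ev_int, ← h, map_mul]
  congr 1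
  simp [ev]

/-- a nonzero integer polynomial has a nonzero value at some point congruent to `a` -/
theorem exists_point {F : MvPolynomial (Fin s) ℤ} (hF : F ≠ 0) (a : Fin s → ℤ) {p : ℕ}
    (hp : p ≠ 0) : ∃ b : Fin s → ℤ, eval (fun i => a i + p * b i) F ≠ 0 := by
  by_contra hcon
  push Not at hcon
  apply hF
  have hp' : (p : ℤ) ≠ 0 := by exact_mod_cast hp
  refine MvPolynomial.funext_set (fun i => Set.range fun b : ℤ => a i + p * b) (fun i => ?_)
    fun x hx => ?_
  · apply Set.infinite_range_of_injective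
    intro b b' hb
    exact mul_left_cancel₀ hp' (add_left_cancel hb)
  · have h1 : ∀ i, ∃ b : ℤ, a i + p * b = x i := fun i => hx i (Set.mem_univ i)
    choose b hb using h1
    rw [map_zero, ← hcon b]
    congr 2
    funext i
    exact (hb i).symm

/-- **Specialisation.** -/
theorem spec {h : MvPolynomial (Fin s) ℚ} (hh : h ≠ 0) (E : Finset (Localization.Away h))
    (B : ℕ) : ∃ p : ℕ, B ≤ p ∧ ∃ hp : Fact p.Prime, ∀ x : Localization.Away h, x ≠ 0 →
      ∃ φ : Localization.Away h →+* ℚ_[p], φ x ≠ 0 ∧ ∀ e ∈ E, ‖φ e‖ ≤ 1 := by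
  classical
  obtain ⟨c, H, hc, hH⟩ := exists_int h
  have hH0 : H ≠ 0 := by
    intro h0
    rw [h0, map_zero, mul_eq_zero] at hH
    rcases hH with h1 | h1
    · rw [MvPolynomial.C_eq_zero] at h1
      exact hc (by exact_mod_cast h1)
    · exact hh h1
  obtain ⟨a, ha⟩ : ∃ a : Fin s → ℤ, eval a H ≠ 0 := by
    by_contra hcon
    push Not at hcon
    exact hH0 (MvPolynomial.funext fun x => by rw [hcon x, map_zero])
  -- numerators of the elements
  have hnum : ∀ x : Localization.Away h, ∃ (f : MvPolynomial (Fin s) ℚ) (k : ℕ),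
      x * algebraMap _ _ (h ^ k) = algebraMap _ _ f := by
    intro x
    obtain ⟨⟨f, ⟨_, k, rfl⟩⟩, hf⟩ := IsLocalization.surj (Submonoid.powers h) x
    exact ⟨f, k, hf⟩
  choose f k hf using hnum
  choose ce Fe hce hFe using fun x : Localization.Away h => exists_int (f x)
  set M : ℕ := (c * eval a H * ∏ e ∈ E, ce e).natAbs with hM
  have hM0 : 0 < M := by
    rw [hM]
    exact Int.natAbs_pos.2 (mul_ne_zero (mul_ne_zero hc ha)
      (Finset.prod_ne_zero_iff.2 fun e _ => hce e))
  obtain ⟨p, hpM, hpp⟩ := Nat.exists_infinite_primes (max B (M + 1))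
  have : Fact p.Prime := ⟨hpp⟩
  have hpi : Prime (p : ℤ) := Nat.prime_iff_prime_int.1 hpp
  have hpM' : ¬ (p : ℤ) ∣ c * eval a H * ∏ e ∈ E, ce e := by
    intro hd
    have h1 : p ∣ M := by
      rw [hM]
      exact Int.natCast_dvd.1 hd
    have h2 := Nat.le_of_dvd hM0 h1
    have h3 := le_max_right B (M + 1)
    omega
  have hpc : ¬ (p : ℤ) ∣ c := fun hd => hpM' ((hd.mul_right _).mul_right _)
  have hpa : ¬ (p : ℤ) ∣ eval a H := fun hd => hpM' ((hd.mul_left _).mul_right _)
  have hpe : ∀ e ∈ E, ¬ (p : ℤ) ∣ ce e := fun e he hd =>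
    hpM' ((hd.trans (Finset.dvd_prod_of_mem _ he)).mul_left _)
  have hunit : ∀ z : ℤ, ¬ (p : ℤ) ∣ z → ‖(z : ℚ_[p])‖ = 1 := by
    intro z hz
    rw [Padic.norm_intCast_eq_one_iff]
    exact ((Prime.coprime_iff_not_dvd hpi).2 hz).symm
  refine ⟨p, (le_max_left _ _).trans hpM, this, fun x hx => ?_⟩
  have hinj : Function.Injective (algebraMap (MvPolynomial (Fin s) ℚ) (Localization.Away h)) :=
    IsLocalization.injective _ (powers_le_nonZeroDivisors_of_noZeroDivisors hh)
  have hfx : f x ≠ 0 := by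
    intro h0
    have h1 := hf x
    rw [h0, map_zero] at h1
    have h2 : IsUnit (algebraMap (MvPolynomial (Fin s) ℚ) (Localization.Away h) (h ^ k x)) :=
      IsLocalization.map_units (Localization.Away h) (⟨h ^ k x, k x, rfl⟩ : Submonoid.powers h)
    exact hx (h2.mul_left_eq_zero.1 h1)
  have hFx : Fe x ≠ 0 := by
    intro h0
    have h1 := hFe x
    rw [h0, map_zero, mul_eq_zero] at h1
    rcases h1 with h1 | h1
    · rw [MvPolynomial.C_eq_zero] at h1
      exact hce x (by exact_mod_cast h1)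
    · exact hfx h1
  obtain ⟨b, hb⟩ := exists_point hFx a hpp.ne_zero
  set y : Fin s → ℤ := fun i => a i + p * b i with hy
  have hya : ¬ (p : ℤ) ∣ eval y H := by
    intro hd
    apply hpa
    have h1 : (Int.castRingHom (ZMod p)) (eval y H) = (Int.castRingHom (ZMod p)) (eval a H) := by
      have h2 : ∀ y : Fin s → ℤ, (Int.castRingHom (ZMod p)) (eval y H) =
          eval₂ (Int.castRingHom (ZMod p)) (fun i => ((y i : ℤ) : ZMod p)) H := by
        intro y
        have h3 := MvPolynomial.eval₂_comp_left (Int.castRingHom (ZMod p)) (RingHom.id ℤ) y H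
        exact h3
      rw [h2, h2]
      congr 1
      funext i
      rw [hy]
      push_cast
      rw [ZMod.natCast_self, zero_mul, add_zero]
    have h4 : (Int.castRingHom (ZMod p)) (eval y H) = 0 :=
      (ZMod.intCast_zmod_eq_zero_iff_dvd _ p).2 hd
    rw [h4] at h1
    exact (ZMod.intCast_zmod_eq_zero_iff_dvd _ p).1 h1.symm
  have hcn : ‖(c : ℚ_[p])‖ = 1 := hunit c hpc
  have hhn : ‖ev p y h‖ = 1 := by
    have h1 := congrArg norm (ev_clear p y hH)
    rw [norm_mul, hcn, one_mul, hunit _ hya] at h1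
    exact h1
  have hh0 : IsUnit (ev p y h) := by
    apply IsUnit.mk0
    intro h0
    rw [h0, norm_zero] at hhn
    exact zero_ne_one hhn
  let φ : Localization.Away h →+* ℚ_[p] := IsLocalization.Away.lift h hh0
  have hφ : ∀ g, φ (algebraMap _ _ g) = ev p y g := fun g => IsLocalization.Away.lift_eq h hh0 g
  refine ⟨φ, ?_, fun e he => ?_⟩
  · intro h0
    have h1 := congrArg φ (hf x)
    rw [map_mul, h0, zero_mul, hφ] at h1
    have h2 := ev_clear p y (hFe x)
    rw [← h1, mul_zero] at h2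
    exact hb (by exact_mod_cast h2.symm)
  · have h1 := congrArg φ (hf e)
    rw [map_mul, hφ, hφ, map_pow] at h1
    have h2 := congrArg norm h1
    rw [norm_mul, norm_pow, hhn, one_pow, mul_one] at h2
    have h3 := congrArg norm (ev_clear p y (hFe e))
    rw [norm_mul, hunit _ (hpe e he), one_mul] at h3
    rw [h2, h3]
    exact Padic.norm_int_le_one _

end Pool.Agent.V5helper56.CC
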