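import Pool.Agent.V5helper56.CC.XZero
import Pool.Agent.TH784.AA.Fin

/-!
# Polynomial averages of products of characters under commuting affine maps of a compact connected
abelian group
-/

set_option autoImplicit false

open Filter Topology MeasureTheory Polynomial
open scoped ComplexConjugate

noncomputable section

namespace Pool.Agent.V5helper56.CC

open Pool.Agent.TH784.AA (BB pbk KK mem_KK pbk_KK IsAC IsAff int_ac fb norm_fb fb_add isAff_prod)
open Pool.Agent.W761.Box (prod_zpow_add)
open Pool.Agent.V5helper56.AN (ch toCircle_ee weyl_conv const_avg)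

universe u

variable {X : Type u}

section alg

variable {D m : ℕ} {T : Fin D → Equiv.Perm X}

/-- the action of `ℤ^D` by pullbacks -/
def act (hc : ∀ i j, Commute (T i) (T j)) :
    Multiplicative (Fin D → ℤ) →* Module.End ℤ (BB X) where
  toFun a := (pbk ((List.ofFn fun i => T i ^ (Multiplicative.toAdd a i)).prod : X → X)).toIntLinearMap
  map_one' := by
    apply LinearMap.ext
    intro f
    apply Additive.toMul.injective
    funext x
    show f.toMul ((List.ofFn fun i => T i ^ ((0 : Fin D → ℤ) i)).prod x) = f.toMul x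
    simp
  map_mul' a b := by
    apply LinearMap.ext
    intro f
    apply Additive.toMul.injective
    funext x
    show f.toMul ((List.ofFn fun i => T i ^ ((Multiplicative.toAdd a + Multiplicative.toAdd b) i)).prod x)
      = f.toMul ((List.ofFn fun i => T i ^ (Multiplicative.toAdd b i)).prod
        ((List.ofFn fun i => T i ^ (Multiplicative.toAdd a i)).prod x))
    rw [add_comm, prod_zpow_add T hc]
    rfl

theorem act_apply (hc : ∀ i j, Commute (T i) (T j)) (a : Fin D → ℤ) (f : BB X) (x : X) :
    (act hc (Multiplicative.ofAdd a) f).toMul x = f.toMul ((List.ofFn fun i => T i ^ a i).prod x) :=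
  rfl

end alg

variable [CommGroup X] [TopologicalSpace X]

/-- the affine characters -/
def AC (X : Type u) [CommGroup X] [TopologicalSpace X] : AddSubgroup (BB X) where
  carrier := {f | IsAC f.toMul}
  zero_mem' := IsAC.one
  add_mem' := fun hf hg => IsAC.mul hf hg
  neg_mem' := fun hf => IsAC.inv hf

/-- the dual of a connected group is torsion-free -/
theorem ac_tf [PreconnectedSpace X] {z : ℤ} (hz : z ≠ 0) {f : BB X} (hf : f ∈ AC X)
    (h : z • f ∈ KK X) : f ∈ KK X := by
  obtain ⟨χ, c, hχ⟩ : IsAC f.toMul := hf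
  have h1 : ∀ x, (χ x) ^ z = 1 := by
    intro x
    have h2 : (f.toMul x) ^ z = (f.toMul 1) ^ z := mem_KK.1 h x 1
    rw [hχ, hχ, map_one, mul_one, mul_zpow] at h2
    exact mul_eq_left.1 h2
  set n := z.natAbs with hn
  have hn0 : 0 < n := Int.natAbs_pos.2 hz
  have h2 : ∀ x, (χ x) ^ n = 1 := by
    intro x
    rcases Int.natAbs_eq z with h3 | h3
    · have := h1 x
      rw [h3, zpow_natCast] at this
      exact this
    · have := h1 x
      rw [h3, zpow_neg, zpow_natCast, inv_eq_one] at this
      exact this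
  have hfin : (Set.range χ).Finite := by
    have h3 : (Set.range χ) ⊆ ((↑) : Circle → ℂ) ⁻¹' (Polynomial.nthRootsFinset n (1 : ℂ) : Set ℂ) := by
      rintro _ ⟨x, rfl⟩
      rw [Set.mem_preimage, Finset.mem_coe, Polynomial.mem_nthRootsFinset hn0]
      have := congrArg ((↑) : Circle → ℂ) (h2 x)
      rwa [Circle.coe_pow, Circle.coe_one] at this
    exact (Set.Finite.preimage (Function.Injective.injOn Circle.coe_injective)
      (Finset.finite_toSet _)).subset h3
  have hpre : (Set.range χ).Subsingleton := by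
    have h4 : IsPreconnected (Set.range χ) := isPreconnected_range χ.continuous_toFun
    by_contra hcon
    exact (h4.infinite_of_nontrivial (Set.not_subsingleton_iff.1 hcon)) hfin
  rw [mem_KK]
  intro x y
  rw [hχ, hχ, hpre ⟨x, rfl⟩ ⟨y, rfl⟩]

theorem toCircle_add' (s t : ℝ) : (((AddCircle.toCircle ((s + t : ℝ) : UnitAddCircle)) : Circle) : ℂ)
    = ((AddCircle.toCircle ((s : ℝ) : UnitAddCircle) : Circle) : ℂ) *
      ((AddCircle.toCircle ((t : ℝ) : UnitAddCircle) : Circle) : ℂ) := by
  rw [AddCircle.coe_add, AddCircle.toCircle_add, Circle.coe_mul]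

/-- every point of the circle is `e(t)` -/
theorem exists_ee (w : Circle) : ∃ a : ℝ, AddCircle.toCircle ((a : ℝ) : UnitAddCircle) = w := by
  refine ⟨Complex.arg w / (2 * Real.pi), ?_⟩
  rw [AddCircle.toCircle_apply_mk]
  have h1 : 2 * Real.pi / 1 * (Complex.arg w / (2 * Real.pi)) = Complex.arg w := by
    field_simp
  rw [h1]
  exact Circle.exp_arg w

variable [IsTopologicalGroup X] [CompactSpace X] [T2Space X]
  [MeasurableSpace X] [BorelSpace X] {μ : Measure X} [IsProbabilityMeasure μ]
  [μ.IsHaarMeasure]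

omit [IsTopologicalGroup X] [CompactSpace X] [T2Space X] [MeasurableSpace X] [BorelSpace X] in
/-- polynomial phases have convergent averages -/
theorem phase_conv (f : BB X) (B : ℕ) (c : ℕ → BB X) (hc : ∀ k, c k ∈ KK X) (x : X) :
    ∃ L, Tendsto (fun N : ℕ => (N : ℂ)⁻¹ * ∑ n ∈ Finset.range N,
      fb (f + ∑ k ∈ Finset.range B, (n.choose k) • c k) x) atTop (𝓝 L) := by
  choose a ha using fun k => exists_ee ((c k).toMul x)
  obtain ⟨L, hL⟩ := weyl_conv (∑ k ∈ Finset.range B, C (a k) * (ch k).map (algebraMap ℚ ℝ))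
  refine ⟨fb f x * L, (hL.const_mul (fb f x)).congr fun N => ?_⟩
  rw [mul_left_comm, Finset.mul_sum]
  congr 1
  apply Finset.sum_congr rfl
  intro n _
  rw [fb_add]
  congr 1
  rw [eval_finsetSum]
  have hch : ∀ k, ((ch k).map (algebraMap ℚ ℝ)).eval (n : ℝ) = (n.choose k : ℝ) := by
    intro k
    have h1 : ((ch k).map (algebraMap ℚ ℝ)).eval (n : ℝ) = (((ch k).eval (n : ℚ) : ℚ) : ℝ) := by
      have := Polynomial.eval_map_apply (p := ch k) (f := algebraMap ℚ ℝ) (x := (n : ℚ))
      simpa using this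
    have h2 : (ch k).eval (n : ℚ) = (n.choose k : ℚ) := by
      have h3 := choose_cast (n : ℤ) k
      rw [Ring.choose_natCast] at h3
      push_cast at h3
      exact h3.symm
    rw [h1, h2, Rat.cast_natCast]
  have key : ∀ s : Finset ℕ, ((AddCircle.toCircle ((∑ k ∈ s,
      (C (a k) * (ch k).map (algebraMap ℚ ℝ)).eval (n : ℝ) : ℝ) : UnitAddCircle) : Circle) : ℂ) =
      fb (∑ k ∈ s, (n.choose k) • c k) x := by
    intro s
    classical
    induction s using Finset.induction_on with
    | empty =>
      rw [Finset.sum_empty, Finset.sum_empty]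
      simp [fb]
    | insert k s hk ih =>
      rw [Finset.sum_insert hk, Finset.sum_insert hk, fb_add, toCircle_add', ih]
      congr 1
      rw [eval_mul, eval_C, hch, mul_comm, ← nsmul_eq_mul, AddCircle.coe_nsmul,
        AddCircle.toCircle_nsmul, ha]
      rfl
  exact key _

omit [T2Space X] in
/-- one-sided averages of products of characters -/
theorem one_sideX [PreconnectedSpace X] {D m : ℕ} {T : Fin D → Equiv.Perm X}
    (hT : ∀ a : Fin D → ℤ, IsAff ((List.ofFn fun i => T i ^ a i).prod : X → X))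
    (hc : ∀ i j, Commute (T i) (T j)) (P : Fin D → Fin m → ℤ[X]) (χ : Fin m → X →ₜ* Circle) :
    ∀ᵐ x ∂μ, ∃ L, Tendsto (fun N : ℕ => (N : ℂ)⁻¹ * ∑ n ∈ Finset.range N,
      ∏ j, (χ j ((List.ofFn fun i => T i ^ (P i j).eval (n : ℤ)).prod x) : ℂ)) atTop (𝓝 L) := by
  classical
  let w : Fin m → BB X := fun j => Additive.ofMul fun x => χ j x
  let U : ℤ → BB X := fun n => ∑ j, act hc (Multiplicative.ofAdd fun i => (P i j).eval n) (w j)
  have hA : ∀ g, ∀ a ∈ AC X, act hc g a ∈ AC X := fun g a ha => IsAC.comp ha (hT _)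
  have hw : ∀ j, w j ∈ AC X := fun j => ⟨χ j, 1, fun x => (one_mul _).symm⟩
  obtain ⟨q, hq, hd⟩ := seq_dich (act hc) (KK X) (AC X)
    (fun g c hc' => pbk_KK _ hc') hA (fun z hz a ha h => ac_tf hz ha h) P w hw U (fun n => rfl)
  have hUac : ∀ n, IsAC (U n).toMul := fun n => (AC X).sum_mem fun j _ => hA _ _ (hw j)
  have hprod : ∀ (n : ℤ) (x : X), ∏ j, (χ j ((List.ofFn fun i => T i ^ (P i j).eval n).prod x) : ℂ) =
      fb (U n) x := by
    intro n x
    have key : ∀ s : Finset (Fin m),
        ∏ j ∈ s, (χ j ((List.ofFn fun i => T i ^ (P i j).eval n).prod x) : ℂ) =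
        fb (∑ j ∈ s, act hc (Multiplicative.ofAdd fun i => (P i j).eval n) (w j)) x := by
      intro s
      induction s using Finset.induction_on with
      | empty =>
        rw [Finset.prod_empty, Finset.sum_empty]
        simp [fb]
      | insert j s hj ih =>
        rw [Finset.prod_insert hj, Finset.sum_insert hj, fb_add, ih]
        rfl
    exact key _
  have hr : ∀ r : ℕ, ∀ᵐ x ∂μ, ∃ L, Tendsto (fun N : ℕ => (N : ℂ)⁻¹ *
      ∑ n ∈ Finset.range N, fb (U ((r + q * n : ℕ) : ℤ)) x) atTop (𝓝 L) := by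
    intro r
    rcases hd r with ⟨B, c, hcK, h⟩ | ⟨M, hM⟩
    · refine Eventually.of_forall fun x => ?_
      obtain ⟨L, hL⟩ := phase_conv (U (r : ℤ)) B c hcK x
      refine ⟨L, hL.congr fun N => ?_⟩
      congr 1
      apply Finset.sum_congr rfl
      intro n _
      rw [← h n, add_sub_cancel]
    · filter_upwards [ae_zeroX (μ := μ) (fun n => U ((r + q * n : ℕ) : ℤ)) (fun n => hUac _) hM]
        with x hx
      exact ⟨0, hx⟩
  filter_upwards [ae_all_iff.mpr hr] with x hx
  simp only [hprod]
  exact Pool.Agent.H922R3.TA.avg_classes (u := fun n : ℕ => fb (U n) x) (C := 1)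
    (fun n => (norm_fb _ _).le) hq hx

end Pool.Agent.V5helper56.CC
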