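import Pool.Agent.V5helper56.CC.XConv

/-!
# From characters to bounded functions on a compact abelian group
(adapted from `Pool/Agent/TH635/FB`)
-/

set_option autoImplicit false

open Filter Topology MeasureTheory Polynomial

noncomputable section

namespace Pool.Agent.V5helper56.CC

open Pool.Agent.TH635.FB (av avr Cv Bd SingleGood Cv_closed_sup Cv_closed Cv_closed' Cv_zero Cv_add
  Cv_smul prod_update riem_complex clampC clampC_cont clampC_bd clampC_eq av_of_sides avr_of_sides)
open Pool.Agent.TH784.AA (TP TP_dense BM_of_TP TP_dense_L1 chi_mem)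

universe u

variable {X : Type u} [CommGroup X] [TopologicalSpace X] [IsTopologicalGroup X] [CompactSpace X]
  [MeasurableSpace X] [BorelSpace X] {μ : Measure X} {m : ℕ}

/-- convergence for products of characters -/
def ChsX (μ : Measure X) (g : Fin m → ℤ → X → X) : Prop :=
  ∀ χ : Fin m → X →ₜ* Circle, Cv μ g fun j x => (χ j x : ℂ)

omit [MeasurableSpace X] [BorelSpace X] in
theorem bd_cont {f : X → ℂ} (hf : Continuous f) : Bd f := by
  obtain ⟨C, hC⟩ := isCompact_univ.exists_bound_of_continuousOn hf.continuousOn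
  exact ⟨C, fun x => hC x (Set.mem_univ x)⟩

omit [IsTopologicalGroup X] [CompactSpace X] [MeasurableSpace X] [BorelSpace X] in
theorem chi_cont (χ : X →ₜ* Circle) : Continuous fun x => (χ x : ℂ) :=
  continuous_subtype_val.comp χ.continuous_toFun

theorem Cv_contX [T2Space X] {g : Fin m → ℤ → X → X} (hg0 : ChsX μ g)
    {F : Fin m → X → ℂ} (hF : ∀ j, Continuous (F j)) : Cv μ g F := by
  classical
  have key : ∀ S : Finset (Fin m), ∀ F : Fin m → X → ℂ, (∀ j, Continuous (F j)) →
      (∀ j, j ∉ S → ∃ χ : X →ₜ* Circle, F j = fun x => (χ x : ℂ)) → Cv μ g F := by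
    intro S
    induction S using Finset.induction_on with
    | empty =>
      intro F _ h
      choose χ hχ using fun j => h j (Finset.notMem_empty j)
      have e : F = fun j x => (χ j x : ℂ) := funext hχ
      rw [e]
      exact hg0 χ
    | insert j S hj ih =>
      intro F hFc h
      rw [← Function.update_eq_self j F]
      apply Cv_closed_sup (fun l => bd_cont (hFc l))
      intro ε hε
      obtain ⟨p, hp, _, hfp⟩ := TP_dense ⟨F j, hFc j⟩ hε
      refine ⟨p, hfp, ?_⟩
      refine Submodule.span_induction (p := fun (p : X → ℂ) _ =>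
        Cv μ g (Function.update F j p)) ?_ ?_ ?_ ?_ hp
      · rintro _ ⟨χ, rfl⟩
        apply ih
        · intro l
          by_cases hlj : l = j
          · subst hlj
            rw [Function.update_self]
            exact chi_cont χ
          · rw [Function.update_of_ne hlj]
            exact hFc l
        · intro l hl
          by_cases hlj : l = j
          · subst hlj
            exact ⟨χ, by rw [Function.update_self]⟩
          · rw [Function.update_of_ne hlj]
            exact h l (by
              rw [Finset.mem_insert]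
              tauto)
      · exact Cv_zero
      · intro p q _ _ h1 h2
        exact Cv_add h1 h2
      · intro c p _ h1
        exact Cv_smul c h1
  exact key Finset.univ F hF fun j hj => absurd (Finset.mem_univ j) hj

theorem single_contX [T2Space X] {g : Fin m → ℤ → X → X} (hg0 : ChsX μ g)
    (j : Fin m) {K : X → ℝ} (hK : Continuous K) :
    ∀ᵐ x ∂μ, ∃ L : ℝ, Tendsto (fun N => avr N fun n => K (g j n x)) atTop (𝓝 L) := by
  have h := Cv_contX hg0 (F := Function.update (fun _ _ => 1) j fun x => (K x : ℂ)) (by
    intro l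
    by_cases hl : l = j
    · subst hl
      rw [Function.update_self]
      exact Complex.continuous_ofReal.comp hK
    · rw [Function.update_of_ne hl]
      exact continuous_const)
  filter_upwards [h] with x hx
  obtain ⟨L, hL⟩ := hx
  refine ⟨L.re, ?_⟩
  have h1 := (Complex.continuous_re.tendsto L).comp hL
  refine h1.congr fun N => ?_
  have e0 : ∀ n : ℤ, ∏ l, (Function.update (fun _ _ => (1 : ℂ)) j fun x => (K x : ℂ)) l (g l n x) =
      ((K (g j n x) : ℝ) : ℂ) := by
    intro n
    rw [prod_update, Finset.prod_eq_one fun l _ => rfl, mul_one]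
  simp only [Function.comp_apply, av, avr, e0]
  have e : ((2 * N + 1 : ℕ) : ℂ)⁻¹ = (((2 * N + 1 : ℕ) : ℝ)⁻¹ : ℝ) := by push_cast; rfl
  rw [e, ← Complex.ofReal_sum, ← Complex.ofReal_mul, Complex.ofReal_re]

variable [TopologicalSpace.MetrizableSpace X] [IsProbabilityMeasure μ] [μ.IsHaarMeasure]

/-- bounded functions -/
theorem main_bddX {g : Fin m → ℤ → X → X} (hg0 : ChsX μ g)
    (hmp : ∀ j n, MeasurePreserving (g j n) μ μ)
    {F : Fin m → X → ℂ} (hb : ∀ j, Bd (F j))
    (hF : ∀ j, (∀ᵐ x ∂μ, ContinuousAt (F j) x) ∨ (Measurable (F j) ∧ SingleGood μ (g j))) :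
    Cv μ g F := by
  classical
  have hcr : ∀ u : X → ℝ, Continuous u → ∃ C, ∀ x, |u x| ≤ C := by
    intro u hu
    obtain ⟨C, hC⟩ := isCompact_univ.exists_bound_of_continuousOn hu.continuousOn
    exact ⟨C, fun x => hC x (Set.mem_univ x)⟩
  have key : ∀ S : Finset (Fin m), ∀ F : Fin m → X → ℂ, (∀ j, Bd (F j)) →
      (∀ j ∈ S, (∀ᵐ x ∂μ, ContinuousAt (F j) x) ∨ (Measurable (F j) ∧ SingleGood μ (g j))) →
      (∀ j, j ∉ S → Continuous (F j)) → Cv μ g F := by
    intro S
    induction S using Finset.induction_on with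
    | empty =>
      intro F _ _ h
      exact Cv_contX hg0 fun j => h j (Finset.notMem_empty j)
    | insert j S hj ih =>
      intro F hb hg hc
      have hup : ∀ u : X → ℂ, Continuous u → Cv μ g (Function.update F j u) := by
        intro u hu
        apply ih
        · intro l
          by_cases hl : l = j
          · subst hl
            rw [Function.update_self]
            exact bd_cont hu
          · rw [Function.update_of_ne hl]
            exact hb l
        · intro l hl
          have hlj : l ≠ j := fun h => hj (h ▸ hl)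
          rw [Function.update_of_ne hlj]
          exact hg l (Finset.mem_insert_of_mem hl)
        · intro l hl
          by_cases hlj : l = j
          · subst hlj
            rw [Function.update_self]
            exact hu
          · rw [Function.update_of_ne hlj]
            exact hc l (by
              rw [Finset.mem_insert]
              tauto)
      rw [← Function.update_eq_self j F]
      rcases hg j (Finset.mem_insert_self j S) with h | ⟨hm, hs⟩
      · apply Cv_closed' hb (hmp j)
        intro ε hε
        obtain ⟨C, hC⟩ := hb j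
        letI : MetricSpace X := TopologicalSpace.metrizableSpaceMetric X
        obtain ⟨u, K, hu, hK, huK, hKi⟩ := riem_complex μ hC h hε
        exact ⟨u, K, hK.measurable, hcr K hK, huK, hKi, single_contX hg0 j hK, hup u hu⟩
      · apply Cv_closed hb (hmp j) hs ⟨hm, hb j⟩
        intro ε hε
        obtain ⟨p, hp, hpf⟩ := TP_dense_L1 (μ := μ) (F := F j) ⟨hm, hb j⟩ hε
        refine ⟨p, BM_of_TP hp, hpf, ?_⟩
        refine Submodule.span_induction (p := fun (p : X → ℂ) _ =>
          Cv μ g (Function.update F j p)) ?_ ?_ ?_ ?_ hp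
        · rintro _ ⟨χ, rfl⟩
          exact hup _ (chi_cont χ)
        · exact Cv_zero
        · intro p q _ _ h1 h2
          exact Cv_add h1 h2
        · intro c p _ h1
          exact Cv_smul c h1
  exact key Finset.univ F hb (fun j _ => hF j) fun j hj => absurd (Finset.mem_univ j) hj

theorem main_topX {g : Fin m → ℤ → X → X} (hg0 : ChsX μ g)
    (hmp : ∀ j n, MeasurePreserving (g j n) μ μ)
    {f : Fin m → X → ℂ} (hf : ∀ j, MemLp (f j) ⊤ μ)
    (hg : ∀ j, (∀ᵐ x ∂μ, ContinuousAt (f j) x) ∨ SingleGood μ (g j)) :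
    Cv μ g f := by
  have hbd : ∀ j, ∃ C : ℝ, 0 ≤ C ∧ ∀ᵐ x ∂μ, ‖f j x‖ ≤ C := by
    intro j
    refine ⟨(eLpNormEssSup (f j) μ).toReal, ENNReal.toReal_nonneg, ?_⟩
    have h1 := (hf j).eLpNorm_lt_top
    rw [eLpNorm_exponent_top] at h1
    filter_upwards [ae_le_eLpNormEssSup (f := f j) (μ := μ)] with x hx
    have h2 := ENNReal.toReal_mono h1.ne hx
    rwa [toReal_enorm] at h2
  choose C hC0 hC using hbd
  have hrep : ∀ j, ∃ F : X → ℂ, Bd F ∧ (∀ᵐ x ∂μ, f j x = F x) ∧
      ((∀ᵐ x ∂μ, ContinuousAt F x) ∨ (Measurable F ∧ SingleGood μ (g j))) := by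
    intro j
    rcases hg j with h | h
    · refine ⟨fun x => clampC (C j) (f j x), ⟨_, fun x => clampC_bd (hC0 j) _⟩, ?_, Or.inl ?_⟩
      · filter_upwards [hC j] with x hx
        exact (clampC_eq hx).symm
      · filter_upwards [h] with x hx
        exact (clampC_cont _).continuousAt.comp hx
    · have hm := (hf j).1.stronglyMeasurable_mk.measurable
      refine ⟨fun x => clampC (C j) ((hf j).1.mk (f j) x), ⟨_, fun x => clampC_bd (hC0 j) _⟩, ?_,
        Or.inr ⟨(clampC_cont _).measurable.comp hm, h⟩⟩
      filter_upwards [hC j, (hf j).1.ae_eq_mk] with x hx hx'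
      rw [← hx', clampC_eq hx]
  choose F hF1 hF2 hF3 using hrep
  have hmain := main_bddX hg0 hmp hF1 hF3
  have heq : ∀ᵐ x ∂μ, ∀ (j : Fin m) (n : ℤ), f j (g j n x) = F j (g j n x) := by
    rw [ae_all_iff]
    intro j
    rw [ae_all_iff]
    intro n
    exact (hmp j n).quasiMeasurePreserving.ae (hF2 j)
  filter_upwards [hmain, heq] with x hx hx'
  obtain ⟨L, hL⟩ := hx
  refine ⟨L, hL.congr fun N => ?_⟩
  congr 1
  funext n
  exact Finset.prod_congr rfl fun j _ => (hx' j n).symm

/-- a linear sequence is `SingleGood` -/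
theorem single_powX {b c : Equiv.Perm X} (hb : MeasurePreserving b μ μ)
    (hb' : MeasurePreserving b.symm μ μ) (hc : MeasurePreserving c μ μ) :
    SingleGood μ fun n => ((b ^ n * c : Equiv.Perm X) : X → X) := by
  rintro G hG ⟨C, hC⟩
  have b1 := Pool.Agent.H165R3.BPE.birkhoff hb G hG C hC
  have b2 := Pool.Agent.H165R3.BPE.birkhoff hb' G hG C hC
  have c1 := hc.quasiMeasurePreserving.ae b1
  have c2 := hc.quasiMeasurePreserving.ae b2
  filter_upwards [c1, c2] with x h1 h2
  refine ⟨_, avr_of_sides (u := fun n => G ((b ^ n * c : Equiv.Perm X) x))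
    (h1.congr fun N => ?_) (h2.congr fun N => ?_)⟩
  · refine congrArg _ (Finset.sum_congr rfl fun k _ => ?_)
    rw [zpow_natCast, Equiv.Perm.mul_apply, ← Equiv.Perm.iterate_eq_pow]
  · refine congrArg _ (Finset.sum_congr rfl fun k _ => ?_)
    rw [zpow_neg, zpow_natCast, ← inv_pow, Equiv.Perm.mul_apply,
      ← Equiv.Perm.iterate_eq_pow (b⁻¹) k]
    rfl

end Pool.Agent.V5helper56.CC
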